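import Mathlib

set_option autoImplicit false

namespace Pool.Agent.P49a735

open Polynomial Complex ComplexConjugate Filter Topology Set

/-- complexification -/
noncomputable def cx (f : ℝ[X]) : ℂ[X] := f.map (algebraMap ℝ ℂ)

theorem cx_ne_zero {f : ℝ[X]} (hf : f ≠ 0) : cx f ≠ 0 :=
  (Polynomial.map_ne_zero_iff (algebraMap ℝ ℂ).injective).2 hf

theorem cx_natDegree (f : ℝ[X]) : (cx f).natDegree = f.natDegree :=
  natDegree_map_eq_of_injective (algebraMap ℝ ℂ).injective f

theorem cx_leadingCoeff (f : ℝ[X]) : (cx f).leadingCoeff = (f.leadingCoeff : ℂ) :=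
  leadingCoeff_map_of_injective (algebraMap ℝ ℂ).injective f

theorem cx_eval_real (f : ℝ[X]) (x : ℝ) : (cx f).eval (x : ℂ) = ((f.eval x : ℝ) : ℂ) := by
  unfold cx
  rw [Polynomial.eval_map_algebraMap]
  exact (@aeval_algebraMap_apply_eq_algebraMap_eval ℝ ℂ _ _ _ x f)

theorem cx_card (f : ℝ[X]) : (cx f).roots.card = f.natDegree := by
  rw [← cx_natDegree]
  exact (IsAlgClosed.splits (cx f)).natDegree_eq_card_roots.symm

theorem cx_eval_conj (f : ℝ[X]) (z : ℂ) : (cx f).eval (conj z) = conj ((cx f).eval z) := by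
  unfold cx
  rw [eval_map_algebraMap, eval_map_algebraMap, aeval_conj]

theorem cx_roots_conj (f : ℝ[X]) : (cx f).roots.map conj = (cx f).roots := by
  have h := (IsAlgClosed.splits (cx f)).roots_map (starRingEnd ℂ)
  have h2 : (cx f).map (starRingEnd ℂ) = cx f := by
    unfold cx
    rw [Polynomial.map_map]
    congr 1
    ext x
    simp
  rw [h2] at h
  exact h.symm

theorem cx_roots_neg (f : ℝ[X]) (s : ℝ) (hs : s ≠ 0) (h : f.comp (-X) = C s * f) :
    (cx f).roots.map (fun x => -x) = (cx f).roots := by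
  rw [← roots_comp_neg_X]
  have : (cx f).comp (-X) = C (s : ℂ) * cx f := by
    have h2 := congrArg (Polynomial.map (algebraMap ℝ ℂ)) h
    rw [Polynomial.map_comp] at h2
    simpa [cx] using h2
  rw [this, roots_C_mul _ (by exact_mod_cast hs)]

/-- number of complex roots with real part `> y` -/
noncomputable def Zc (f : ℝ[X]) (y : ℝ) : ℕ := (cx f).roots.countP (fun ζ => y < ζ.re)

noncomputable def theta (l : ℝ) (s : Multiset ℂ) (y : ℝ) : ℝ :=
  (s.map (fun ζ => (if l < ζ.re then Real.pi else 0) + Real.arctan ((y - ζ.im) / (l - ζ.re)))).sum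

theorem theta_cons (l : ℝ) (a : ℂ) (s : Multiset ℂ) (y : ℝ) : theta l (a ::ₘ s) y =
    ((if l < a.re then Real.pi else 0) + Real.arctan ((y - a.im) / (l - a.re))) + theta l s y := by
  unfold theta
  rw [Multiset.map_cons, Multiset.sum_cons]

theorem polar_arctan (t : ℝ) : (1 + t * I : ℂ) = (Real.sqrt (1 + t ^ 2) : ℝ) * exp (Real.arctan t * I) := by
  have h : 0 < 1 + t ^ 2 := by positivity
  have h2 : Real.sqrt (1 + t ^ 2) ≠ 0 := (Real.sqrt_pos.2 h).ne'
  rw [Complex.exp_mul_I, ← Complex.ofReal_cos, ← Complex.ofReal_sin, Real.cos_arctan, Real.sin_arctan]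
  push_cast
  have h3 : (Real.sqrt (1 + t ^ 2) : ℂ) ≠ 0 := by exact_mod_cast h2
  field_simp

theorem theta_polar (l : ℝ) (s : Multiset ℂ) (hs : ∀ ζ ∈ s, ζ.re ≠ l) (y : ℝ) :
    ∃ r : ℝ, 0 < r ∧ (s.map (fun ζ => ((l : ℂ) + y * I) - ζ)).prod = r * exp (theta l s y * I) := by
  induction s using Multiset.induction_on with
  | empty => exact ⟨1, one_pos, by simp [theta]⟩
  | cons a s ih =>
    obtain ⟨r, hr, h⟩ := ih (fun ζ hζ => hs ζ (Multiset.mem_cons_of_mem hζ))
    have ha := hs a (Multiset.mem_cons_self a s)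
    set t : ℝ := (y - a.im) / (l - a.re) with ht
    have hne : l - a.re ≠ 0 := sub_ne_zero.2 (Ne.symm ha)
    have h1 : (l : ℂ) + y * I - a = ((l - a.re : ℝ) : ℂ) * (1 + t * I) := by
      have h0 : (l - a.re) * t = y - a.im := by rw [ht]; field_simp
      apply Complex.ext
      · simp
      · simp
        linarith
    have h2 : ((l - a.re : ℝ) : ℂ) = (|l - a.re| : ℝ) * exp (((if l < a.re then Real.pi else 0 : ℝ) : ℂ) * I) := by
      split_ifs with h3
      · rw [abs_of_neg (by linarith), Complex.exp_pi_mul_I]; push_cast; ring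
      · have : a.re < l := lt_of_le_of_ne (not_lt.1 h3) ha
        rw [abs_of_pos (by linarith)]; simp
    refine ⟨|l - a.re| * Real.sqrt (1 + t ^ 2) * r, ?_, ?_⟩
    · have : 0 < |l - a.re| := abs_pos.2 hne
      positivity
    · rw [Multiset.map_cons, Multiset.prod_cons, h, h1, h2, polar_arctan, theta_cons, ← ht,
        Complex.ofReal_add, Complex.ofReal_add, Complex.ofReal_mul, Complex.ofReal_mul,
        add_mul, add_mul, Complex.exp_add, Complex.exp_add]
      ring

theorem theta_cont (l : ℝ) (s : Multiset ℂ) : Continuous (theta l s) := by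
  induction s using Multiset.induction_on with
  | empty =>
    have : theta l 0 = fun _ => 0 := by funext y; simp [theta]
    rw [this]; exact continuous_const
  | cons a s ih =>
    have : theta l (a ::ₘ s) = fun y => ((if l < a.re then Real.pi else 0) +
      Real.arctan ((y - a.im) / (l - a.re))) + theta l s y := by funext y; exact theta_cons l a s y
    rw [this]
    refine (continuous_const.add (Real.continuous_arctan.comp ?_)).add ih
    exact (continuous_id.sub continuous_const).div_const _

theorem theta_top (l : ℝ) (s : Multiset ℂ) (hs : ∀ ζ ∈ s, ζ.re ≠ l) :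
    Tendsto (theta l s) atTop (𝓝 (s.card * (Real.pi / 2))) := by
  induction s using Multiset.induction_on with
  | empty =>
    have : theta l 0 = fun _ => 0 := by funext y; simp [theta]
    rw [this]; simp
  | cons a s ih =>
    have : theta l (a ::ₘ s) = fun y => ((if l < a.re then Real.pi else 0) +
      Real.arctan ((y - a.im) / (l - a.re))) + theta l s y := by funext y; exact theta_cons l a s y
    rw [this, Multiset.card_cons]
    have h1 := ih (fun ζ hζ => hs ζ (Multiset.mem_cons_of_mem hζ))
    have ha := hs a (Multiset.mem_cons_self a s)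
    have h2 : Tendsto (fun y : ℝ => (if l < a.re then Real.pi else 0) +
      Real.arctan ((y - a.im) / (l - a.re))) atTop (𝓝 (Real.pi / 2)) := by
      split_ifs with h3
      · have h4 : Tendsto (fun y : ℝ => (y - a.im) / (l - a.re)) atTop atBot := by
          apply Tendsto.atTop_div_const_of_neg (by linarith)
          exact tendsto_atTop_add_const_right _ _ tendsto_id
        have h5 := (Real.tendsto_arctan_atBot.mono_right nhdsWithin_le_nhds).comp h4
        have h6 := h5.const_add Real.pi
        refine h6.trans_eq ?_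
        congr 1
        ring
      · have h7 : a.re < l := lt_of_le_of_ne (not_lt.1 h3) ha
        have h4 : Tendsto (fun y : ℝ => (y - a.im) / (l - a.re)) atTop atTop := by
          apply Tendsto.atTop_div_const (by linarith)
          exact tendsto_atTop_add_const_right _ _ tendsto_id
        have h5 := (Real.tendsto_arctan_atTop.mono_right nhdsWithin_le_nhds).comp h4
        simp only [zero_add]
        exact h5
    refine (h2.add h1).trans_eq ?_
    congr 1
    push_cast; ring

theorem theta_bot (l : ℝ) (s : Multiset ℂ) (hs : ∀ ζ ∈ s, ζ.re ≠ l) :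
    Tendsto (theta l s) atBot (𝓝 (2 * Real.pi * (s.countP (fun ζ => l < ζ.re)) -
      s.card * (Real.pi / 2))) := by
  induction s using Multiset.induction_on with
  | empty =>
    have : theta l 0 = fun _ => 0 := by funext y; simp [theta]
    rw [this]; simp
  | cons a s ih =>
    have : theta l (a ::ₘ s) = fun y => ((if l < a.re then Real.pi else 0) +
      Real.arctan ((y - a.im) / (l - a.re))) + theta l s y := by funext y; exact theta_cons l a s y
    rw [this, Multiset.card_cons]
    have h1 := ih (fun ζ hζ => hs ζ (Multiset.mem_cons_of_mem hζ))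
    have ha := hs a (Multiset.mem_cons_self a s)
    by_cases h3 : l < a.re
    · rw [Multiset.countP_cons_of_pos (p := fun ζ : ℂ => l < ζ.re) s h3]
      simp only [h3, if_true]
      have h4 : Tendsto (fun y : ℝ => (y - a.im) / (l - a.re)) atBot atTop := by
        have h8 : Tendsto (fun y : ℝ => (y - a.im)) atBot atBot :=
          tendsto_atBot_add_const_right _ _ tendsto_id
        have h9 : (l - a.re)⁻¹ < 0 := inv_lt_zero.2 (by linarith)
        exact (h8.atBot_mul_const_of_neg h9).congr (fun y => by rw [div_eq_mul_inv])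
      have h5 := (Real.tendsto_arctan_atTop.mono_right nhdsWithin_le_nhds).comp h4
      have h6 := (h5.const_add Real.pi).add h1
      refine h6.trans_eq ?_
      congr 1
      push_cast; ring
    · rw [Multiset.countP_cons_of_neg (p := fun ζ : ℂ => l < ζ.re) s h3]
      simp only [h3, if_false, zero_add]
      have h7 : a.re < l := lt_of_le_of_ne (not_lt.1 h3) ha
      have h4 : Tendsto (fun y : ℝ => (y - a.im) / (l - a.re)) atBot atBot := by
        apply Tendsto.atBot_div_const (by linarith)
        exact tendsto_atBot_add_const_right _ _ tendsto_id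
      have h5 := (Real.tendsto_arctan_atBot.mono_right nhdsWithin_le_nhds).comp h4
      have h6 := h5.add h1
      refine h6.trans_eq ?_
      congr 1
      push_cast; ring

theorem theta_zero (l : ℝ) (s : Multiset ℂ) (hs : s.map conj = s) :
    theta l s 0 = Real.pi * s.countP (fun ζ => l < ζ.re) := by
  have h1 : ∀ s : Multiset ℂ, theta l s 0 = Real.pi * s.countP (fun ζ => l < ζ.re) +
      (s.map (fun ζ : ℂ => Real.arctan (-ζ.im / (l - ζ.re)))).sum := by
    intro s
    induction s using Multiset.induction_on with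
    | empty => simp [theta]
    | cons a s ih =>
      rw [theta_cons, ih, Multiset.map_cons, Multiset.sum_cons]
      by_cases h3 : l < a.re
      · rw [Multiset.countP_cons_of_pos (p := fun ζ : ℂ => l < ζ.re) s h3]
        simp only [h3, if_true]
        push_cast
        rw [zero_sub]
        ring
      · rw [Multiset.countP_cons_of_neg (p := fun ζ : ℂ => l < ζ.re) s h3]
        simp only [h3, if_false]
        rw [zero_sub]
        ring
  have h2 : (s.map (fun ζ : ℂ => Real.arctan (-ζ.im / (l - ζ.re)))).sum =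
      -(s.map (fun ζ : ℂ => Real.arctan (-ζ.im / (l - ζ.re)))).sum := by
    conv_lhs => rw [← hs]
    rw [Multiset.map_map, ← Multiset.sum_map_neg]
    congr 1
    apply Multiset.map_congr rfl
    intro ζ _
    simp only [Function.comp_apply, Complex.conj_im, Complex.conj_re, neg_neg]
    rw [← Real.arctan_neg]
    congr 1
    ring
  have h3 : (s.map (fun ζ : ℂ => Real.arctan (-ζ.im / (l - ζ.re)))).sum = 0 := by linarith
  rw [h1, h3, add_zero]

theorem cx_polar (f : ℝ[X]) (hlc : 0 < f.leadingCoeff) (l : ℝ)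
    (hs : ∀ ζ ∈ (cx f).roots, ζ.re ≠ l) (y : ℝ) :
    ∃ r : ℝ, 0 < r ∧ (cx f).eval ((l : ℂ) + y * I) = r * exp (theta l (cx f).roots y * I) := by
  obtain ⟨r, hr, h⟩ := theta_polar l (cx f).roots hs y
  refine ⟨f.leadingCoeff * r, mul_pos hlc hr, ?_⟩
  rw [(IsAlgClosed.splits (cx f)).eval_eq_prod_roots, cx_leadingCoeff, h]
  push_cast; ring

/-- sign of a real polynomial at a real point -/
theorem parity (f : ℝ[X]) (hlc : 0 < f.leadingCoeff) (l : ℝ)
    (hs : ∀ ζ ∈ (cx f).roots, ζ.re ≠ l) : 0 < (-1) ^ (Zc f l) * f.eval l := by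
  obtain ⟨r, hr, h⟩ := cx_polar f hlc l hs 0
  rw [theta_zero l _ (cx_roots_conj f)] at h
  simp only [ofReal_zero, zero_mul, add_zero] at h
  rw [cx_eval_real] at h
  have e : exp (((Real.pi * ((cx f).roots.countP (fun ζ => l < ζ.re) : ℕ) : ℝ) : ℂ) * I) =
      (-1) ^ (Zc f l) := by
    have : (((Real.pi * ((cx f).roots.countP (fun ζ => l < ζ.re) : ℕ) : ℝ) : ℂ) * I) =
      ((cx f).roots.countP (fun ζ => l < ζ.re) : ℕ) * (Real.pi * I) := by push_cast; ring
    rw [this, Complex.exp_nat_mul, Complex.exp_pi_mul_I]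
    rfl
  rw [e] at h
  have h2 : f.eval l = r * (-1) ^ (Zc f l) := by exact_mod_cast h
  rw [h2]
  have : (-1:ℝ) ^ Zc f l * (r * (-1) ^ Zc f l) = r := by
    have : ((-1:ℝ) ^ Zc f l) * (-1) ^ Zc f l = 1 := by rw [← mul_pow]; simp
    linear_combination r * this
  rw [this]; exact hr

/-- IVT counting -/
theorem ivt_count (φ : ℝ → ℝ) (u v : ℝ) (huv : u < v) (hφ : ContinuousOn φ (Icc u v)) (T : Finset ℤ)
    (hT : ∀ t ∈ T, φ v < t ∧ (t : ℝ) < φ u) :
    ∃ S : Finset ℝ, S.card = T.card ∧ ∀ x ∈ S, u < x ∧ x < v ∧ ∃ t : ℤ, φ x = t := by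
  have h1 : ∀ t ∈ T, ∃ x : ℝ, u < x ∧ x < v ∧ φ x = t := by
    intro t ht
    have := intermediate_value_Ioo' huv.le hφ ⟨(hT t ht).1, (hT t ht).2⟩
    obtain ⟨x, hx, hx2⟩ := this
    exact ⟨x, hx.1, hx.2, hx2⟩
  choose! g hg using h1
  refine ⟨T.image g, ?_, ?_⟩
  · apply Finset.card_image_of_injOn
    intro a ha b hb hab
    have h2 := (hg a ha).2.2
    have h3 := (hg b hb).2.2
    have hab' : g a = g b := hab
    rw [hab', h3] at h2
    exact_mod_cast h2.symm
  · intro x hx
    rw [Finset.mem_image] at hx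
    obtain ⟨t, ht, rfl⟩ := hx
    exact ⟨(hg t ht).1, (hg t ht).2.1, t, (hg t ht).2.2⟩

end Pool.Agent.P49a735
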