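import Pool.Agent.Lib.P49a735.Basic

set_option autoImplicit false

namespace Pool.Agent.P49a735

open Polynomial Complex ComplexConjugate Filter Topology Bornology

theorem gamma_asym (l : Filter ℂ) (ε : ℝ) (hε : ε = 1 ∨ ε = -1)
    (h1 : Tendsto (fun z : ℂ => exp (2 * (ε * Real.pi * I * z))) l (𝓝 0))
    (h2 : Tendsto (fun z : ℂ => z) l (Bornology.cobounded ℂ)) (K : ℕ) (s : ℂ) :
    Tendsto (fun z : ℂ => Gamma (z + s) * Gamma ((K : ℂ) + 1 - z - s) *
        exp (-(ε * Real.pi * I * z)) * (z ^ K)⁻¹) l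
      (𝓝 ((-1) ^ K * (2 * Real.pi / (ε * I)) * exp (ε * Real.pi * I * s))) := by
  have hε0 : (ε : ℂ) ≠ 0 := by
    rcases hε with h | h <;> simp [h]
  have hεε : (ε : ℂ) * ε = 1 := by
    rcases hε with h | h <;> simp [h]
  have hsin : ∀ x : ℂ, sin x = ε * sin (ε * x) := by
    intro x
    rcases hε with h | h <;> simp [h]
  induction K with
  | zero =>
    have e : ∀ z : ℂ, Gamma (z + s) * Gamma (((0:ℕ) : ℂ) + 1 - z - s) *
        exp (-(ε * Real.pi * I * z)) * (z ^ 0)⁻¹ =
        2 * Real.pi / (ε * I * (exp (-(ε * Real.pi * I * s)) -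
          exp (2 * (ε * Real.pi * I * z)) * exp (ε * Real.pi * I * s))) := by
      intro z
      have e1 : (((0:ℕ) : ℂ) + 1 - z - s) = 1 - (z + s) := by push_cast; ring
      rw [e1, Complex.Gamma_mul_Gamma_one_sub, pow_zero, inv_one, mul_one]
      have e2 : ε * I * (exp (-(ε * Real.pi * I * s)) -
          exp (2 * (ε * Real.pi * I * z)) * exp (ε * Real.pi * I * s))
          = 2 * sin (Real.pi * (z + s)) * exp (ε * Real.pi * I * z) := by
        rw [hsin, Complex.sin]
        have e3 : exp (-(ε * (Real.pi * (z + s))) * I) * exp (ε * Real.pi * I * z) =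
            exp (-(ε * Real.pi * I * s)) := by
          rw [← Complex.exp_add]; congr 1; ring
        have e4 : exp ((ε * (Real.pi * (z + s))) * I) * exp (ε * Real.pi * I * z) =
            exp (2 * (ε * Real.pi * I * z)) * exp (ε * Real.pi * I * s) := by
          rw [← Complex.exp_add, ← Complex.exp_add]; congr 1; ring
        rw [← e3, ← e4]; ring
      rw [e2, Complex.exp_neg]
      have hexp := Complex.exp_ne_zero (ε * Real.pi * I * z)
      by_cases h0 : sin (Real.pi * (z + s)) = 0
      · simp [h0]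
      · field_simp
    simp_rw [e]
    have hlim : Tendsto (fun z : ℂ => ε * I * (exp (-(ε * Real.pi * I * s)) -
          exp (2 * (ε * Real.pi * I * z)) * exp (ε * Real.pi * I * s))) l
          (𝓝 (ε * I * (exp (-(ε * Real.pi * I * s)) - 0 * exp (ε * Real.pi * I * s)))) :=
      (tendsto_const_nhds.sub (h1.mul_const _)).const_mul _
    have hne : ε * I * (exp (-(ε * Real.pi * I * s)) - 0 * exp (ε * Real.pi * I * s)) ≠ 0 := by
      rw [zero_mul, sub_zero]
      exact mul_ne_zero (mul_ne_zero hε0 I_ne_zero) (Complex.exp_ne_zero _)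
    have := (tendsto_const_nhds (x := (2 * Real.pi : ℂ))).div hlim hne
    refine this.trans_eq ?_
    congr 1
    rw [zero_mul, sub_zero, pow_zero, one_mul, Complex.exp_neg]
    have hexp := Complex.exp_ne_zero (ε * Real.pi * I * s)
    field_simp
  | succ K ih =>
    have hz0 : ∀ᶠ z : ℂ in l, z ≠ 0 := h2.eventually (eventually_ne_cobounded 0)
    have hz1 : ∀ᶠ z : ℂ in l, z ≠ (K : ℂ) + 1 - s := h2.eventually (eventually_ne_cobounded _)
    have hinv : Tendsto (fun z : ℂ => z⁻¹) l (𝓝 0) := tendsto_inv₀_cobounded.comp h2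
    have hr : Tendsto (fun z : ℂ => (((K : ℂ) + 1 - s) * z⁻¹ - 1)) l (𝓝 (((K : ℂ) + 1 - s) * 0 - 1)) :=
      (hinv.const_mul _).sub_const _
    have := hr.mul ih
    have e5 : ((K : ℂ) + 1 - s) * 0 - 1 = -1 := by ring
    rw [e5] at this
    have e6 : (-1) * ((-1) ^ K * (2 * Real.pi / (ε * I)) * exp (ε * Real.pi * I * s)) =
      ((-1) ^ (K + 1) * (2 * Real.pi / (ε * I)) * exp (ε * Real.pi * I * s)) := by ring
    rw [e6] at this
    refine this.congr' ?_
    filter_upwards [hz0, hz1] with z hz0 hz1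
    have hne : (K : ℂ) + 1 - z - s ≠ 0 := by
      intro h; apply hz1; linear_combination -h
    have e7 : (((K + 1 : ℕ) : ℂ) + 1 - z - s) = ((K : ℂ) + 1 - z - s) + 1 := by push_cast; ring
    rw [e7, Complex.Gamma_add_one _ hne, pow_succ]
    field_simp
    ring

theorem Fp_asym (l : Filter ℂ) (ε : ℝ) (hε : ε = 1 ∨ ε = -1)
    (h1 : Tendsto (fun z : ℂ => exp (2 * (ε * Real.pi * I * z))) l (𝓝 0))
    (h2 : Tendsto (fun z : ℂ => z) l (Bornology.cobounded ℂ)) (K : ℕ) (a : ℝ) (w : ℂ) (n : ℕ)
    (s t : ℂ) (hst : s + t + n * a = K + 1) :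
    Tendsto (fun z : ℂ => (Fp a n (z + s) (-z + t)).eval w *
        exp (-(ε * Real.pi * I * z)) * (z ^ K)⁻¹) l
      (𝓝 ((-1) ^ K * (2 * Real.pi / (ε * I)) * exp (ε * Real.pi * I * s) *
        (exp (ε * Real.pi * I * a) + w) ^ n)) := by
  induction n generalizing s t with
  | zero =>
    have := gamma_asym l ε hε h1 h2 K s
    simp only [pow_zero, mul_one, Fp, eval_C]
    refine this.congr fun z => ?_
    have ht : -z + t = (K : ℂ) + 1 - z - s := by
      rw [← hst]; push_cast; ring
    rw [ht]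
  | succ n ih =>
    have i1 := ih (s + a) t (by rw [← hst]; push_cast; ring)
    have i2 := ih s (t + a) (by rw [← hst]; push_cast; ring)
    have := i1.add (i2.const_mul w)
    refine (this.congr fun z => ?_).trans_eq ?_
    · simp only [Fp, eval_add, eval_mul, eval_X]
      rw [add_assoc z s, add_assoc (-z) t]
      ring
    · congr 1
      have : exp (ε * Real.pi * I * (s + a)) =
          exp (ε * Real.pi * I * s) * exp (ε * Real.pi * I * a) := by
        rw [← Complex.exp_add]; congr 1; ring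
      rw [this]
      ring

theorem tendsto_im_cobounded (l : Filter ℂ) (h : Tendsto (fun z : ℂ => |z.im|) l atTop) :
    Tendsto (fun z : ℂ => z) l (Bornology.cobounded ℂ) := by
  rw [← tendsto_norm_atTop_iff_cobounded]
  exact tendsto_atTop_mono (fun z => Complex.abs_im_le_norm z) h

theorem tendsto_exp_of_im (l : Filter ℂ) (ε : ℝ)
    (h : Tendsto (fun z : ℂ => ε * z.im) l atTop) :
    Tendsto (fun z : ℂ => exp (2 * (ε * Real.pi * I * z))) l (𝓝 0) := by
  rw [tendsto_zero_iff_norm_tendsto_zero]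
  have e : ∀ z : ℂ, ‖exp (2 * (ε * Real.pi * I * z))‖ = Real.exp (-(2 * Real.pi * (ε * z.im))) := by
    intro z
    rw [Complex.norm_exp]
    congr 1
    simp
    ring
  simp_rw [e]
  apply Real.tendsto_exp_neg_atTop_nhds_zero.comp
  exact h.const_mul_atTop (by positivity)

/-- the quotient `Φ(z-2m)/Φ(z)` is bounded at `± i∞`. -/
theorem ratio_bounded (K : ℕ) (a : ℝ) (w : ℂ) (n : ℕ) (s t m : ℂ) (hst : s + t + n * a = K + 1)
    (hw1 : exp (Real.pi * I * a) + w ≠ 0) (hw2 : exp (-(Real.pi * I * a)) + w ≠ 0) :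
    (fun z : ℂ => (Fp a n (z + s - 2 * m) (-z + t + 2 * m)).eval w /
      (Fp a n (z + s) (-z + t)).eval w) =O[comap (fun z : ℂ => |z.im|) atTop] (fun _ => (1:ℝ)) := by
  have key : ∀ (ε : ℝ) (_ : ε = 1 ∨ ε = -1) (l : Filter ℂ),
      Tendsto (fun z : ℂ => ε * z.im) l atTop → (exp (ε * Real.pi * I * a) + w ≠ 0) →
      (fun z : ℂ => (Fp a n (z + s - 2 * m) (-z + t + 2 * m)).eval w /
      (Fp a n (z + s) (-z + t)).eval w) =O[l] (fun _ => (1:ℝ)) := by
    intro ε hε l hl hw
    have habs : Tendsto (fun z : ℂ => |z.im|) l atTop := by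
      refine hl.congr' ?_
      filter_upwards [hl.eventually_ge_atTop 0] with z hz
      rcases hε with h | h
      · rw [h] at hz ⊢
        rw [one_mul] at hz ⊢
        rw [abs_of_nonneg hz]
      · rw [h] at hz ⊢
        rw [abs_of_nonpos (by linarith)]; ring
    have hc := tendsto_im_cobounded l habs
    have he := tendsto_exp_of_im l ε hl
    have i1 := Fp_asym l ε hε he hc K a w n s t hst
    have i2 := Fp_asym l ε hε he hc K a w n (s - 2 * m) (t + 2 * m) (by rw [← hst]; ring)
    have hne : (-1) ^ K * (2 * Real.pi / (ε * I)) * exp (ε * Real.pi * I * s) *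
        (exp (ε * Real.pi * I * a) + w) ^ n ≠ 0 := by
      have hε0 : (ε : ℂ) ≠ 0 := by
        rcases hε with h | h <;> simp [h]
      have hpi : (Real.pi : ℂ) ≠ 0 := by exact_mod_cast Real.pi_ne_zero
      refine mul_ne_zero (mul_ne_zero (mul_ne_zero (by simp) ?_) (Complex.exp_ne_zero _))
        (pow_ne_zero _ hw)
      exact div_ne_zero (mul_ne_zero two_ne_zero hpi) (mul_ne_zero hε0 I_ne_zero)
    have := (i2.div i1 hne).isBigO_one ℝ
    refine this.congr' ?_ (EventuallyEq.refl _ _)
    filter_upwards [hc.eventually (eventually_ne_cobounded 0)] with z hz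
    have hexp := Complex.exp_ne_zero (-(ε * Real.pi * I * z))
    have hzK : (z ^ K)⁻¹ ≠ 0 := inv_ne_zero (pow_ne_zero _ hz)
    rw [Pi.div_apply, mul_div_mul_right _ _ hzK, mul_div_mul_right _ _ hexp]
    rw [add_sub_assoc, add_assoc]
  have hsplit : comap (fun z : ℂ => |z.im|) atTop = comap Complex.im atTop ⊔ comap Complex.im atBot := by
    have : (fun z : ℂ => |z.im|) = (fun x : ℝ => |x|) ∘ Complex.im := rfl
    rw [this, ← comap_comap]
    have h2 : comap (fun x : ℝ => |x|) atTop = atBot ⊔ atTop := comap_abs_atTop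
    rw [h2, comap_sup, sup_comm]
  rw [hsplit]
  refine Asymptotics.IsBigO.sup ?_ ?_
  · refine key 1 (Or.inl rfl) _ ?_ ?_
    · simp only [one_mul]; exact tendsto_comap
    · simpa using hw1
  · refine key (-1) (Or.inr rfl) _ ?_ ?_
    · have : Tendsto Complex.im (comap Complex.im atBot) atBot := tendsto_comap
      exact (tendsto_neg_atBot_atTop.comp this).congr (fun z => by simp)
    · convert hw2 using 3
      push_cast; ring

end Pool.Agent.P49a735
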