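import Mathlib

set_option autoImplicit false

namespace Pool.Agent.P49a735

open Polynomial Complex ComplexConjugate

/-- `F_n(A,B;w) = ∑ C(n,j) w^j Γ(A+(n-j)a) Γ(B+ja)` as a polynomial in `w` (by Pascal recursion). -/
noncomputable def Fp (a : ℝ) : ℕ → ℂ → ℂ → ℂ[X]
  | 0, A, B => C (Gamma A * Gamma B)
  | n + 1, A, B => Fp a n (A + a) B + X * Fp a n A (B + a)

/-- The regularised version `B * F_n(A,B;w)`, also defined at `B = 0`. -/
noncomputable def Hp (a : ℝ) : ℕ → ℂ → ℂ → ℂ[X]
  | 0, A, B => C (Gamma A * Gamma (B + 1))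
  | n + 1, A, B => Hp a n (A + a) B + X * (C B * Fp a n A (B + a))

theorem Hp_eq (a : ℝ) (n : ℕ) (A B : ℂ) (hB : B ≠ 0) : Hp a n A B = C B * Fp a n A B := by
  induction n generalizing A with
  | zero =>
    simp only [Hp, Fp]
    rw [Complex.Gamma_add_one B hB, ← C_mul]
    congr 1; ring
  | succ n ih =>
    simp only [Hp, Fp]
    rw [ih]
    ring

theorem Hp_zero (a : ℝ) (n : ℕ) (A : ℂ) : Hp a n A 0 = C (Gamma (A + n * a)) := by
  induction n generalizing A with
  | zero => simp [Hp]
  | succ n ih =>
    simp only [Hp]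
    rw [ih]
    simp only [map_zero, zero_mul, mul_zero, add_zero]
    congr 2; push_cast; ring

theorem natDegree_Fp_le (a : ℝ) (n : ℕ) (A B : ℂ) : (Fp a n A B).natDegree ≤ n := by
  induction n generalizing A B with
  | zero => simp only [Fp]; exact (natDegree_C _).le
  | succ n ih =>
    simp only [Fp]
    refine (natDegree_add_le _ _).trans (max_le ((ih _ _).trans (Nat.le_succ n)) ?_)
    refine (natDegree_mul_le).trans ?_
    rw [natDegree_X]
    have := ih A (B + a)
    omega

theorem natDegree_Hp_le (a : ℝ) (n : ℕ) (A B : ℂ) : (Hp a n A B).natDegree ≤ n := by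
  induction n generalizing A B with
  | zero => simp only [Hp]; exact (natDegree_C _).le
  | succ n ih =>
    simp only [Hp]
    refine (natDegree_add_le _ _).trans (max_le ((ih _ _).trans (Nat.le_succ n)) ?_)
    refine (natDegree_mul_le).trans ?_
    rw [natDegree_X]
    have h1 := natDegree_Fp_le a n A (B + a)
    have h2 : (C B * Fp a n A (B + a)).natDegree ≤ n := (natDegree_C_mul_le _ _).trans h1
    omega

theorem Fp_succA (a : ℝ) (n : ℕ) (A B : ℂ) (hA : ∀ k : ℕ, k ≤ n → A + k * a ≠ 0) :
    Fp a n (A + 1) B = C (A + n * a) * Fp a n A B - C (a : ℂ) * X * derivative (Fp a n A B) := by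
  induction n generalizing A B with
  | zero =>
    simp only [Fp]
    have h0 : A ≠ 0 := by simpa using hA 0 le_rfl
    rw [Complex.Gamma_add_one A h0]
    simp only [derivative_C, mul_zero, sub_zero, ← C_mul]
    congr 1; push_cast; ring
  | succ n ih =>
    simp only [Fp]
    have e1 : A + 1 + (a : ℂ) = A + a + 1 := by ring
    rw [e1, ih (A + a) B (fun k hk => by
      have := hA (k + 1) (by omega)
      intro h; apply this; push_cast; rw [← h]; ring), ih A (B + a) (fun k hk => hA k (by omega))]
    simp only [derivative_add, derivative_mul, derivative_X]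
    have e2 : (C (A + (a:ℂ) + n * a) : ℂ[X]) = C (A + ((n + 1 : ℕ) : ℂ) * a) := by
      congr 1; push_cast; ring
    have e3 : (C (A + n * (a:ℂ)) : ℂ[X]) = C (A + ((n + 1 : ℕ) : ℂ) * a) - C (a : ℂ) := by
      rw [← C_sub]; congr 1; push_cast; ring
    rw [e2, e3]
    ring

theorem Fp_succB (a : ℝ) (n : ℕ) (A B : ℂ) (hB : ∀ k : ℕ, k ≤ n → B + k * a ≠ 0) :
    Fp a n A (B + 1) = C B * Fp a n A B + C (a : ℂ) * X * derivative (Fp a n A B) := by
  induction n generalizing A B with
  | zero =>
    simp only [Fp]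
    have h0 : B ≠ 0 := by simpa using hB 0 le_rfl
    rw [Complex.Gamma_add_one B h0]
    simp only [derivative_C, mul_zero, add_zero, ← C_mul]
    congr 1; ring
  | succ n ih =>
    simp only [Fp]
    have e1 : B + 1 + (a : ℂ) = B + a + 1 := by ring
    rw [e1, ih A (B + a) (fun k hk => by
      have := hB (k + 1) (by omega)
      intro h; apply this; push_cast; rw [← h]; ring), ih (A + a) B (fun k hk => hB k (by omega))]
    simp only [derivative_add, derivative_mul, derivative_X, C_add]
    ring

theorem Hp_succA (a : ℝ) (ha : 0 ≤ a) (n : ℕ) (A B : ℂ) (hA : 0 < A.re) :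
    Hp a n (A + 1) B = C (A + n * a) * Hp a n A B - C (a : ℂ) * X * derivative (Hp a n A B) := by
  by_cases hB : B = 0
  · subst hB
    rw [Hp_zero, Hp_zero]
    simp only [derivative_C, mul_zero, sub_zero, ← C_mul]
    congr 1
    rw [show A + 1 + (n : ℂ) * a = (A + n * a) + 1 by ring, Complex.Gamma_add_one]
    intro h
    have := congrArg Complex.re h
    simp at this
    nlinarith [mul_nonneg (Nat.cast_nonneg n : (0:ℝ) ≤ n) ha]
  · rw [Hp_eq _ _ _ _ hB, Hp_eq _ _ _ _ hB, Fp_succA]
    · simp only [derivative_mul, derivative_C, zero_mul, zero_add]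
      ring
    · intro k _ h
      have := congrArg Complex.re h
      simp at this
      nlinarith [mul_nonneg (Nat.cast_nonneg k : (0:ℝ) ≤ k) ha]

theorem Hp_succB (a : ℝ) (ha : 1 ≤ a) (n : ℕ) (A B : ℂ) (hB : -1 < B.re) :
    C B * Fp a n A (B + 1) = C B * Hp a n A B + C (a : ℂ) * X * derivative (Hp a n A B) := by
  by_cases hB0 : B = 0
  · subst hB0
    rw [Hp_zero]
    simp
  · rw [Hp_eq _ _ _ _ hB0, Fp_succB]
    · simp only [derivative_mul, derivative_C, zero_mul, zero_add]
      ring
    · intro k _ h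
      rcases Nat.eq_zero_or_pos k with hk | hk
      · subst hk; apply hB0; simpa using h
      · have := congrArg Complex.re h
        simp at this
        have h1 : (1:ℝ) ≤ k := by exact_mod_cast hk
        nlinarith

theorem eval_Fp_conj (a : ℝ) (n : ℕ) (A B w : ℂ) :
    (Fp a n (conj A) (conj B)).eval (conj w) = conj ((Fp a n A B).eval w) := by
  induction n generalizing A B with
  | zero => simp [Fp, Complex.Gamma_conj]
  | succ n ih =>
    simp only [Fp, eval_add, eval_mul, eval_X, map_add, map_mul]
    rw [← ih, ← ih]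
    simp

theorem eval_Fp_swap (a : ℝ) (n : ℕ) (A B w : ℂ) (hw : w ≠ 0) :
    (Fp a n B A).eval w = w ^ n * (Fp a n A B).eval w⁻¹ := by
  induction n generalizing A B with
  | zero => simp [Fp, mul_comm]
  | succ n ih =>
    simp only [Fp, eval_add, eval_mul, eval_X]
    rw [ih A (B + a), ih (A + a) B]
    field_simp
    ring

theorem norm_Fp_symm (a : ℝ) (n : ℕ) (A B w : ℂ) (hw : ‖w‖ = 1) :
    ‖(Fp a n (conj B) (conj A)).eval w‖ = ‖(Fp a n A B).eval w‖ := by
  have hw0 : w ≠ 0 := by intro h; rw [h] at hw; simp at hw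
  have hinv : w⁻¹ = conj w := by
    rw [Complex.inv_def]
    simp [Complex.normSq_eq_norm_sq, hw]
  rw [eval_Fp_swap a n (conj A) (conj B) w hw0, hinv, eval_Fp_conj, norm_mul, norm_pow, hw, one_pow,
    one_mul, RCLike.norm_conj]

theorem Fp_diff (a : ℝ) (ha : 0 ≤ a) (n : ℕ) (w : ℂ) {α β : ℂ → ℂ} {z : ℂ}
    (hα : DifferentiableAt ℂ α z) (hβ : DifferentiableAt ℂ β z)
    (h1 : 0 < (α z).re) (h2 : 0 < (β z).re) :
    DifferentiableAt ℂ (fun z => (Fp a n (α z) (β z)).eval w) z := by
  induction n generalizing α β with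
  | zero =>
    simp only [Fp, eval_C]
    have g : ∀ u : ℂ, 0 < u.re → DifferentiableAt ℂ Gamma u := by
      intro u hu
      apply Complex.differentiableAt_Gamma
      intro m h
      rw [h] at hu
      simp at hu
      have : (0:ℝ) ≤ m := Nat.cast_nonneg m
      linarith
    exact ((g _ h1).comp z hα).mul ((g _ h2).comp z hβ)
  | succ n ih =>
    simp only [Fp, eval_add, eval_mul, eval_X]
    refine DifferentiableAt.add ?_ ((DifferentiableAt.const_mul ?_ _))
    · exact ih (hα.add_const _) hβ (by simp; linarith) h2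
    · exact ih hα (hβ.add_const _) h1 (by simp; linarith)

theorem Hp_diff (a : ℝ) (ha : 1 ≤ a) (n : ℕ) (w : ℂ) {α β : ℂ → ℂ} {z : ℂ}
    (hα : DifferentiableAt ℂ α z) (hβ : DifferentiableAt ℂ β z)
    (h1 : 0 < (α z).re) (h2 : -1 < (β z).re) :
    DifferentiableAt ℂ (fun z => (Hp a n (α z) (β z)).eval w) z := by
  induction n generalizing α β with
  | zero =>
    simp only [Hp, eval_C]
    have g : ∀ u : ℂ, 0 < u.re → DifferentiableAt ℂ Gamma u := by
      intro u hu
      apply Complex.differentiableAt_Gamma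
      intro m h
      rw [h] at hu
      simp at hu
      have : (0:ℝ) ≤ m := Nat.cast_nonneg m
      linarith
    have h3 : 0 < (β z + 1).re := by simp; linarith
    exact ((g _ h1).comp z hα).mul ((g _ h3).comp z (hβ.add_const 1))
  | succ n ih =>
    simp only [Hp, eval_add, eval_mul, eval_X, eval_C]
    refine DifferentiableAt.add ?_ ((DifferentiableAt.const_mul (hβ.mul ?_) _))
    · exact ih (hα.add_const _) hβ (by simp; linarith) h2
    · exact Fp_diff a (by linarith) n w hα (hβ.add_const _) h1 (by simp; linarith)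

/-- A polynomial of degree `≤ n` without zeros in the closed unit disc satisfies
`Re (w p'(w) conj(p(w))) ≤ (n/2) |p(w)|^2` on the unit circle. -/
theorem re_log_deriv_le (p : ℂ[X]) (n : ℕ) (hn : p.natDegree ≤ n)
    (hp : ∀ w : ℂ, ‖w‖ ≤ 1 → p.eval w ≠ 0) (w : ℂ) (hw : ‖w‖ = 1) :
    (w * (derivative p).eval w * conj (p.eval w)).re ≤ n / 2 * ‖p.eval w‖ ^ 2 := by
  have hpw : p.eval w ≠ 0 := hp w hw.le
  have hsp : p.Splits := IsAlgClosed.splits p
  have h1 := hsp.eval_derivative_eq_eval_mul_sum hpw
  rw [h1]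
  have e : w * (p.eval w * (p.roots.map fun z => 1 / (w - z)).sum) * conj (p.eval w)
      = (‖p.eval w‖ ^ 2 : ℝ) * (p.roots.map fun z => w / (w - z)).sum := by
    have : (p.roots.map fun z => w / (w - z)).sum = w * (p.roots.map fun z => 1 / (w - z)).sum := by
      rw [← Multiset.sum_map_mul_left]
      congr 1
      apply Multiset.map_congr rfl
      intro x _
      ring
    rw [this]
    have h2 : p.eval w * conj (p.eval w) = (‖p.eval w‖ ^ 2 : ℝ) := by
      rw [Complex.mul_conj, Complex.normSq_eq_norm_sq]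
    rw [← h2]; ring
  rw [e, Complex.re_ofReal_mul]
  have h3 : ((p.roots.map fun z => w / (w - z)).sum).re ≤ n / 2 := by
    have h4 : ∀ s : Multiset ℂ, (∀ z ∈ s, 1 ≤ ‖z‖ ∧ z ≠ w) →
        ((s.map fun z => w / (w - z)).sum).re ≤ (s.card : ℝ) / 2 := by
      intro s
      induction s using Multiset.induction_on with
      | empty => intro _; simp
      | cons x s ih =>
        intro hs
        rw [Multiset.map_cons, Multiset.sum_cons, Multiset.card_cons, Complex.add_re]
        have h5 := ih (fun z hz => hs z (Multiset.mem_cons_of_mem hz))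
        have h6 : (w / (w - x)).re ≤ 1 / 2 := by
          obtain ⟨hx1, hx2⟩ := hs x (Multiset.mem_cons_self x s)
          have hne : w - x ≠ 0 := sub_ne_zero.2 (Ne.symm hx2)
          have hpos : 0 < Complex.normSq (w - x) := Complex.normSq_pos.2 hne
          rw [Complex.div_re]
          rw [← add_div, div_le_iff₀ hpos]
          have hw' : w.re ^ 2 + w.im ^ 2 = 1 := by
            have := Complex.sq_norm w
            rw [hw, Complex.normSq_apply] at this
            nlinarith
          have hx' : 1 ≤ x.re ^ 2 + x.im ^ 2 := by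
            have := Complex.sq_norm x
            rw [Complex.normSq_apply] at this
            nlinarith
          rw [Complex.normSq_apply]
          simp only [Complex.sub_re, Complex.sub_im]
          nlinarith
        push_cast
        linarith
    have h7 := h4 p.roots (by
      intro z hz
      rw [mem_roots'] at hz
      refine ⟨?_, ?_⟩
      · by_contra hlt
        push Not at hlt
        exact hp z hlt.le hz.2
      · rintro rfl
        exact hpw hz.2)
    have h8 : (p.roots.card : ℝ) ≤ n := by
      exact_mod_cast (p.card_roots').trans hn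
    linarith
  calc ‖p.eval w‖ ^ 2 * ((p.roots.map fun z => w / (w - z)).sum).re
      ≤ ‖p.eval w‖ ^ 2 * (n / 2) := mul_le_mul_of_nonneg_left h3 (by positivity)
    _ = _ := by ring

theorem norm_sq_diff (u v p q : ℂ) (T : ℝ) (h : u + v = T) :
    ‖u * p - q‖ ^ 2 - ‖v * p + q‖ ^ 2 = T * ((u.re - v.re) * ‖p‖ ^ 2 - 2 * (q * conj p).re) := by
  have hv : v = T - u := by rw [← h]; ring
  subst hv
  rw [Complex.sq_norm, Complex.sq_norm, Complex.sq_norm, Complex.normSq_apply, Complex.normSq_apply,
    Complex.normSq_apply]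
  simp only [Complex.sub_re, Complex.sub_im, Complex.mul_re, Complex.mul_im, Complex.add_re,
    Complex.add_im, Complex.ofReal_re, Complex.ofReal_im, Complex.conj_re, Complex.conj_im]
  ring

end Pool.Agent.P49a735
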