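import Pool.Agent.Lib.P49a735.Mesh

set_option autoImplicit false

namespace Pool.Agent.P49a735

open Polynomial Complex ComplexConjugate Filter Topology Set

/-- the central difference operator of the problem -/
noncomputable def Top (l : ℝ) (f : ℂ → ℂ) (w : ℂ) : ℂ :=
  if l = 0 then deriv f w else (f (w + (l : ℂ)) - f (w - (l : ℂ))) / (2 * (l : ℂ))

theorem prod_eq (N : ℕ) (w : ℂ) :
    ∏ k ∈ Finset.Icc (-(N : ℤ)) (N : ℤ), (w - (k : ℂ)) = (cx (pN N)).eval w := by
  induction N with
  | zero => simp [pN, cx]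
  | succ N ih =>
    have e : Finset.Icc (-((N + 1 : ℕ) : ℤ)) ((N + 1 : ℕ) : ℤ) =
        insert ((N + 1 : ℕ) : ℤ) (insert (-((N + 1 : ℕ) : ℤ)) (Finset.Icc (-(N : ℤ)) (N : ℤ))) := by
      ext k
      simp only [Finset.mem_Icc, Finset.mem_insert]
      push_cast
      omega
    rw [e, Finset.prod_insert, Finset.prod_insert, ih]
    · simp only [pN, cx, Polynomial.map_mul, eval_mul, Polynomial.map_sub, Polynomial.map_add,
        Polynomial.map_X, Polynomial.map_C, eval_sub, eval_add, eval_X, eval_C]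
      push_cast
      simp
      ring
    · simp only [Finset.mem_Icc]; push_cast; omega
    · simp only [Finset.mem_insert, Finset.mem_Icc]; push_cast; omega

theorem Top_iter (l : ℝ) (hl : l ≠ 0) (N n : ℕ) (z : ℂ) :
    (Top l)^[n] (fun w : ℂ => (cx (pN N)).eval w) z = (cx (P l N n)).eval z / (2 * l) ^ n := by
  induction n generalizing z with
  | zero => simp [P_zero]
  | succ n ih =>
    rw [Function.iterate_succ_apply']
    unfold Top at ih ⊢
    simp only [hl, if_false] at ih ⊢
    rw [ih, ih, P_succ, eval_cx_dl]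
    have h2 : (2 * (l : ℂ)) ≠ 0 := by
      have : (l : ℂ) ≠ 0 := by exact_mod_cast hl
      simp [this]
    field_simp
    ring

theorem Top_zero_iter (N n : ℕ) (z : ℂ) :
    (Top 0)^[n] (fun w : ℂ => (cx (pN N)).eval w) z = (derivative^[n] (cx (pN N))).eval z := by
  have h : (Top 0)^[n] (fun w : ℂ => (cx (pN N)).eval w) =
      fun z => (derivative^[n] (cx (pN N))).eval z := by
    induction n with
    | zero => rfl
    | succ n ih =>
      rw [Function.iterate_succ_apply', ih]
      funext z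
      unfold Top
      simp only [if_true]
      rw [Polynomial.deriv, Function.iterate_succ_apply']
  rw [h]

theorem Top_neg (l : ℝ) : Top (-l) = Top l := by
  funext f w
  unfold Top
  by_cases hl : l = 0
  · subst hl; simp
  · have h : -l ≠ 0 := neg_ne_zero.2 hl
    simp only [hl, h, if_false]
    push_cast
    have h2 : (l : ℂ) ≠ 0 := by exact_mod_cast hl
    have e1 : w - -(l : ℂ) = w + l := by ring
    have e2 : w + -(l : ℂ) = w - l := by ring
    rw [e1, e2]
    field_simp
    ring

theorem main_pos (N : ℕ) (l : ℝ) (hl : 0 < l) (n : ℕ) (hn : n ≤ 2 * N + 1) (z : ℂ)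
    (hz : (Top l)^[n] (fun w : ℂ => (cx (pN N)).eval w) z = 0) : z.re = 0 ∨ z.im = 0 := by
  rw [Top_iter l hl.ne', div_eq_zero_iff] at hz
  have h2 : (2 * (l : ℂ)) ^ n ≠ 0 := by
    have : (l : ℂ) ≠ 0 := by exact_mod_cast hl.ne'
    exact pow_ne_zero _ (by simp [this])
  have hz' := hz.resolve_right h2
  rcases le_or_gt (1 / 2) l with h | h
  · exact cross_all l h N n hn z hz'
  · right; exact cross_small l hl h N n hn z hz'

theorem main (N : ℕ) (l : ℝ) (n : ℕ) (hn : n ≤ 2 * N + 1) (z : ℂ)
    (hz : (fun (f : ℂ → ℂ) (w : ℂ) =>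
          if l = 0 then deriv f w
          else (f (w + (l : ℂ)) - f (w - (l : ℂ))) / (2 * (l : ℂ)))^[n]
        (fun w : ℂ => ∏ k ∈ Finset.Icc (-(N : ℤ)) (N : ℤ), (w - (k : ℂ))) z = 0)
    (him : z.im ≠ 0) : z.re = 0 := by
  have e : (fun w : ℂ => ∏ k ∈ Finset.Icc (-(N : ℤ)) (N : ℤ), (w - (k : ℂ))) =
      fun w : ℂ => (cx (pN N)).eval w := by funext w; exact prod_eq N w
  rw [e] at hz
  change (Top l)^[n] (fun w : ℂ => (cx (pN N)).eval w) z = 0 at hz
  rcases lt_trichotomy l 0 with h | h | h
  · rw [← Top_neg l] at hz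
    exact (main_pos N (-l) (by linarith) n hn z hz).resolve_right him
  · subst h
    rw [Top_zero_iter] at hz
    exact absurd ((deriv_real N n hn).2.2 z hz) him
  · exact (main_pos N l h n hn z hz).resolve_right him

end Pool.Agent.P49a735
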