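import Pool.Agent.Lib.P49a735.Strip

set_option autoImplicit false

namespace Pool.Agent.P49a735

open Polynomial Complex ComplexConjugate Filter Topology Bornology Set

theorem Scomp (a : ℝ) (ha : 1 ≤ a) (n K : ℕ) (σ : ℝ) (hσ : 2 * σ + n * a = K + 1)
    (hσ2 : 1 / 2 < σ) (hNV : NV a n (K + 1)) (hNV' : NV a n K) (w : ℂ)
    (hw : ‖w‖ = 1) (hw1 : exp (Real.pi * I * a) + w ≠ 0) (hw2 : exp (-(Real.pi * I * a)) + w ≠ 0) :
    ∀ k : ℕ, ∀ p h : ℝ, 0 ≤ p → 0 ≤ h → (1 / 2 ≤ p ∨ 1 / 2 ≤ h) → p < σ → h < σ → p + h < σ + 1 →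
    (p ≤ 1 + k / 2 ∨ h ≤ 1 + k / 2) → ∀ z : ℂ, z.re = p + h →
    ‖(-z + σ) * (Fp a n (z + σ - 2 * h) (-z + σ + 2 * h)).eval w‖ ≤
      ‖(Hp a n (z + σ) (-z + σ)).eval w‖ := by
  have hna : n * a < K := by linarith
  have hσc : (2 * σ + n * a : ℂ) = K + 1 := by exact_mod_cast hσ
  have base : ∀ p h : ℝ, 0 ≤ p → 0 ≤ h → (1 / 2 ≤ p ∨ 1 / 2 ≤ h) → p < σ → h < σ → p + h < σ + 1 →
    (p ≤ 1 ∨ h ≤ 1) → ∀ z : ℂ, z.re = p + h →
    ‖(-z + σ) * (Fp a n (z + σ - 2 * h) (-z + σ + 2 * h)).eval w‖ ≤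
      ‖(Hp a n (z + σ) (-z + σ)).eval w‖ := by
    intro p h hp0 hh0 hmax hpσ hhσ hsum hmin z hz
    have c1 : 1 / 2 ≤ h → p ≤ 1 → ‖(-z + σ) * (Fp a n (z + σ - 2 * h) (-z + σ + 2 * h)).eval w‖ ≤
      ‖(Hp a n (z + σ) (-z + σ)).eval w‖ := fun h1 h2 =>
      PLstrip a ha n K σ h hσ h1 hhσ hNV hNV' w hw hw1 hw2 z (by linarith) (by linarith)
    have c2 : 1 / 2 ≤ p → h ≤ 1 → ‖(-z + σ) * (Fp a n (z + σ - 2 * h) (-z + σ + 2 * h)).eval w‖ ≤
      ‖(Hp a n (z + σ) (-z + σ)).eval w‖ := by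
      intro h1 h2
      have := PLstrip a ha n K σ p hσ h1 hpσ hNV hNV' w hw hw1 hw2 z (by linarith) (by linarith)
      have e1 : z + σ - 2 * h = conj (-z + σ + 2 * p) := by
        apply Complex.ext
        · simp; linarith
        · simp
      have e2 : -z + σ + 2 * h = conj (z + σ - 2 * p) := by
        apply Complex.ext
        · simp; linarith
        · simp
      rw [norm_mul] at this ⊢
      rw [e1, e2, norm_Fp_symm a n _ _ w hw]
      exact this
    rcases hmax with h1 | h1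
    · rcases hmin with h2 | h2
      · by_cases h3 : h ≤ 1
        · exact c2 h1 h3
        · exact c1 (by linarith) h2
      · exact c2 h1 h2
    · rcases hmin with h2 | h2
      · exact c1 h1 h2
      · by_cases h3 : p ≤ 1
        · exact c1 h1 h3
        · exact c2 (by linarith) h2
  intro k
  induction k with
  | zero =>
    intro p h hp0 hh0 hmax hpσ hhσ hsum hmin z hz
    exact base p h hp0 hh0 hmax hpσ hhσ hsum (by simpa using hmin) z hz
  | succ k ih =>
    intro p h hp0 hh0 hmax hpσ hhσ hsum hmin z hz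
    by_cases hsm : p ≤ 1 ∨ h ≤ 1
    · exact base p h hp0 hh0 hmax hpσ hhσ hsum hsm z hz
    push Not at hsm
    obtain ⟨hp1, hh1⟩ := hsm
    have s1 := D1 a ha n K hNV' (z + σ) (-z + σ) w (by linear_combination hσc) hna
      (by simp; linarith) (by simp; linarith) hw
    have s2 := ih (p - 1 / 2) (h - 1 / 2) (by linarith) (by linarith) (Or.inl (by linarith))
      (by linarith) (by linarith) (by linarith) (by
        push_cast at hmin
        rcases hmin with h1 | h1
        · left; linarith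
        · right; linarith) (z - 1) (by simp [hz]; ring)
    have hB : -(z - 1) + (σ:ℂ) ≠ 0 := by
      intro h
      have := congrArg Complex.re h
      simp at this
      linarith
    rw [Hp_eq _ _ _ _ hB, eval_mul, eval_C, norm_mul, norm_mul] at s2
    have s3 := le_of_mul_le_mul_left s2 (norm_pos_iff.2 hB)
    have e1 : z - 1 + σ - 2 * ((h - 1 / 2 : ℝ) : ℂ) = z + σ - 2 * h := by push_cast; ring
    have e2 : -(z - 1) + σ + 2 * ((h - 1 / 2 : ℝ) : ℂ) = -z + σ + 2 * h := by push_cast; ring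
    have e3 : z - 1 + σ = z + σ - 1 := by ring
    have e4 : -(z - 1) + σ = -z + σ + 1 := by ring
    rw [e1, e2, e3, e4] at s3
    refine le_trans ?_ s1
    rw [norm_mul, norm_mul]
    exact mul_le_mul_of_nonneg_left s3 (norm_nonneg _)

theorem target_generic (a : ℝ) (ha : 1 ≤ a) (n K : ℕ) (σ m : ℝ) (hσ : 2 * σ + n * a = K + 1)
    (hm : 1 / 2 ≤ m) (hmσ : m < σ) (hNV : NV a n (K + 1)) (hNV' : NV a n K) (w : ℂ)
    (hw : ‖w‖ = 1) (hw1 : exp (Real.pi * I * a) + w ≠ 0) (hw2 : exp (-(Real.pi * I * a)) + w ≠ 0)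
    (z : ℂ) (hz1 : m < z.re) (hz2 : z.re < σ + 1) :
    ‖(-z + σ) * (Fp a n (z + σ - 2 * m) (-z + σ + 2 * m)).eval w‖ ≤
      ‖(Hp a n (z + σ) (-z + σ)).eval w‖ := by
  have hna : n * a < K := by linarith
  have hσc : (2 * σ + n * a : ℂ) = K + 1 := by exact_mod_cast hσ
  by_cases hp1 : z.re ≤ m + 1
  · exact PLstrip a ha n K σ m hσ hm hmσ hNV hNV' w hw hw1 hw2 z hz1.le hp1
  push Not at hp1
  obtain ⟨p, hp⟩ : ∃ p : ℝ, z.re = p + m := ⟨z.re - m, by ring⟩
  obtain ⟨k, hk⟩ := exists_nat_gt (2 * p)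
  have s1 := D1 a ha n K hNV' (z + σ) (-z + σ) w (by linear_combination hσc) hna
    (by simp; linarith) (by simp; linarith) hw
  have s2 := Scomp a ha n K σ hσ (by linarith) hNV hNV' w hw hw1 hw2 k (p - 1 / 2) (m - 1 / 2)
    (by linarith) (by linarith) (Or.inl (by linarith))
    (by linarith) (by linarith) (by linarith) (Or.inl (by linarith)) (z - 1) (by simp [hp]; ring)
  have hB : -(z - 1) + (σ:ℂ) ≠ 0 := by
    intro h
    have := congrArg Complex.re h
    simp at this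
    linarith
  rw [Hp_eq _ _ _ _ hB, eval_mul, eval_C, norm_mul, norm_mul] at s2
  have s3 := le_of_mul_le_mul_left s2 (norm_pos_iff.2 hB)
  have e1 : z - 1 + σ - 2 * ((m - 1 / 2 : ℝ) : ℂ) = z + σ - 2 * m := by push_cast; ring
  have e2 : -(z - 1) + σ + 2 * ((m - 1 / 2 : ℝ) : ℂ) = -z + σ + 2 * m := by push_cast; ring
  have e3 : z - 1 + σ = z + σ - 1 := by ring
  have e4 : -(z - 1) + σ = -z + σ + 1 := by ring
  rw [e1, e2, e3, e4] at s3
  refine le_trans ?_ s1
  rw [norm_mul, norm_mul]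
  exact mul_le_mul_of_nonneg_left s3 (norm_nonneg _)

theorem target_le (a : ℝ) (ha : 1 ≤ a) (n K : ℕ) (σ m : ℝ) (hσ : 2 * σ + n * a = K + 1)
    (hm : 1 / 2 ≤ m) (hmσ : m < σ) (hNV : NV a n (K + 1)) (hNV' : NV a n K) (w : ℂ)
    (hw : ‖w‖ = 1) (z : ℂ) (hz1 : m < z.re) (hz2 : z.re < σ + 1) :
    ‖(-z + σ) * (Fp a n (z + σ - 2 * m) (-z + σ + 2 * m)).eval w‖ ≤
      ‖(Hp a n (z + σ) (-z + σ)).eval w‖ := by
  have hw0 : w ≠ 0 := by intro h; rw [h] at hw; simp at hw
  have hd : HasDerivAt (fun t : ℝ => w * exp (t * I)) (w * I) 0 := by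
    have h1 : HasDerivAt (fun t : ℝ => exp ((t : ℂ) * I)) (exp (((0:ℝ):ℂ) * I) * (1 * I)) 0 :=
      ((Complex.ofRealCLM.hasDerivAt (x := (0:ℝ))).mul_const I).cexp
    have h2 := h1.const_mul w
    simpa using h2
  have hne : w * I ≠ 0 := mul_ne_zero hw0 I_ne_zero
  have g1 : ∀ᶠ t : ℝ in 𝓝[≠] (0:ℝ), w * exp (t * I) ≠ -exp (Real.pi * I * a) := hd.eventually_ne hne
  have g2 : ∀ᶠ t : ℝ in 𝓝[≠] (0:ℝ), w * exp (t * I) ≠ -exp (-(Real.pi * I * a)) := hd.eventually_ne hne
  have hcont : Tendsto (fun t : ℝ => w * exp (t * I)) (𝓝[≠] (0:ℝ)) (𝓝 w) := by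
    have := hd.continuousAt.tendsto
    simp only [ofReal_zero, zero_mul, Complex.exp_zero, mul_one] at this
    exact this.mono_left nhdsWithin_le_nhds
  have l1 : Tendsto (fun t : ℝ => ‖(-z + σ) * (Fp a n (z + σ - 2 * m) (-z + σ + 2 * m)).eval
      (w * exp (t * I))‖) (𝓝[≠] (0:ℝ))
      (𝓝 ‖(-z + σ) * (Fp a n (z + σ - 2 * m) (-z + σ + 2 * m)).eval w‖) :=
    ((((Fp a n (z + σ - 2 * m) (-z + σ + 2 * m)).continuous.tendsto w).comp hcont).const_mul _).norm
  have l2 : Tendsto (fun t : ℝ => ‖(Hp a n (z + σ) (-z + σ)).eval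
      (w * exp (t * I))‖) (𝓝[≠] (0:ℝ))
      (𝓝 ‖(Hp a n (z + σ) (-z + σ)).eval w‖) :=
    (((Hp a n (z + σ) (-z + σ)).continuous.tendsto w).comp hcont).norm
  refine le_of_tendsto_of_tendsto l1 l2 ?_
  filter_upwards [g1, g2] with t h1 h2
  refine target_generic a ha n K σ m hσ hm hmσ hNV hNV' _ ?_ ?_ ?_ z hz1 hz2
  · rw [norm_mul, hw, Complex.norm_exp_ofReal_mul_I, one_mul]
  · intro h; apply h1; linear_combination h
  · intro h; apply h2; linear_combination h

theorem target_lt (a : ℝ) (ha : 1 ≤ a) (n K : ℕ) (σ m : ℝ) (hσ : 2 * σ + n * a = K + 1)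
    (hm : 1 / 2 ≤ m) (hmσ : m < σ) (hNV : NV a n (K + 1)) (hNV' : NV a n K) (w : ℂ)
    (hw : ‖w‖ = 1) (z : ℂ) (hz1 : m < z.re) (hz2 : z.re < σ + 1) :
    ‖(-z + σ) * (Fp a n (z + σ - 2 * m) (-z + σ + 2 * m)).eval w‖ <
      ‖(Hp a n (z + σ) (-z + σ)).eval w‖ := by
  have hna' : (n:ℝ) * a < (K + 1 : ℕ) := by push_cast; linarith
  have hσc : (2 * σ + n * a : ℂ) = K + 1 := by exact_mod_cast hσ
  refine lt_of_le_of_ne (target_le a ha n K σ m hσ hm hmσ hNV hNV' w hw z hz1 hz2) ?_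
  intro heq
  set U : Set ℂ := {z : ℂ | m < z.re ∧ z.re < σ + 1} with hU
  have hUo : IsOpen U := (isOpen_lt continuous_const Complex.continuous_re).inter
    (isOpen_lt Complex.continuous_re continuous_const)
  have hUc : IsPreconnected U := by
    apply Convex.isPreconnected
    exact (convex_halfSpace_re_gt m).inter (convex_halfSpace_re_lt (σ + 1))
  have hH : ∀ z ∈ U, (Hp a n (z + σ) (-z + σ)).eval w ≠ 0 := by
    rintro z ⟨h1, h2⟩
    refine hNV _ _ _ ?_ hna' ?_ ?_ hw.le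
    · push_cast; linear_combination hσc
    · simp; linarith
    · simp; linarith
  set f : ℂ → ℂ := fun z => (-z + σ) * (Fp a n (z + σ - 2 * m) (-z + σ + 2 * m)).eval w /
    (Hp a n (z + σ) (-z + σ)).eval w with hf
  have hfd : DifferentiableOn ℂ f U := by
    rintro z ⟨h1, h2⟩
    apply DifferentiableAt.differentiableWithinAt
    refine DifferentiableAt.div (DifferentiableAt.mul (by fun_prop) ?_) ?_ (hH z ⟨h1, h2⟩)
    · refine Fp_diff a (by linarith) n w (α := fun z => z + σ - 2 * m)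
        (β := fun z => -z + σ + 2 * m) (by fun_prop) (by fun_prop) ?_ ?_
      · simp; linarith
      · simp; linarith
    · refine Hp_diff a ha n w (α := fun z => z + σ) (β := fun z => -z + σ) (by fun_prop)
        (by fun_prop) ?_ ?_
      · simp; linarith
      · simp; linarith
  have hfz : ‖f z‖ = 1 := by
    rw [hf]; simp only; rw [norm_div, heq]
    exact div_self (norm_ne_zero_iff.2 (hH z ⟨hz1, hz2⟩))
  have hmax : IsMaxOn (norm ∘ f) U z := by
    intro y hy
    simp only [Set.mem_ofPred_eq, Function.comp_apply]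
    rw [hfz, hf]
    simp only
    rw [norm_div]
    exact div_le_one_of_le₀ (target_le a ha n K σ m hσ hm hmσ hNV hNV' w hw y hy.1 hy.2)
      (norm_nonneg _)
  have hσU : (σ : ℂ) ∈ U := by
    constructor
    · simpa using hmσ
    · simp
  have := Complex.norm_eqOn_of_isPreconnected_of_isMaxOn hUc hUo hfd ⟨hz1, hz2⟩ hmax hσU
  simp only [Function.comp_apply, Function.const_apply] at this
  rw [hfz, hf] at this
  simp at this

/-- the strict comparison in `(A,B)` coordinates -/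
theorem strict_AB (a : ℝ) (ha : 1 ≤ a) (n K : ℕ) (hNV : NV a n (K + 1)) (hNV' : NV a n K)
    (A B w : ℂ) (hAB : A + B + (n + 1 : ℕ) * a = (K + 1 : ℕ)) (hM : ((n + 1 : ℕ) : ℝ) * a < (K + 1 : ℕ))
    (h1 : B.re < A.re) (h2 : -1 < B.re) (hw : ‖w‖ = 1) :
    ‖B * (Fp a n A (B + a)).eval w‖ < ‖(Hp a n (A + a) B).eval w‖ := by
  obtain ⟨hre, him⟩ := sum_re_im (M := ((K + 1 : ℕ) : ℝ)) (by rw [hAB]; push_cast; rfl)
  obtain ⟨σ, hσd⟩ : ∃ σ : ℝ, σ = (A.re + B.re + a) / 2 := ⟨_, rfl⟩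
  have hσ : 2 * σ + n * a = K + 1 := by
    rw [hσd]; push_cast at hre; linarith
  have hσc : (2 * σ + n * a : ℂ) = K + 1 := by exact_mod_cast hσ
  have hm : a / 2 < σ := by
    push_cast at hre hM; linarith
  obtain ⟨z, hz⟩ : ∃ z : ℂ, z = (A + a - B) / 2 := ⟨_, rfl⟩
  have hzre : z.re = (A.re + a - B.re) / 2 := by
    rw [hz]; simp
  have e1 : z + σ = A + a := by
    rw [hz]; push_cast at hAB; linear_combination hσc / 2 - hAB / 2
  have e2 : -z + σ = B := by
    rw [hz]; push_cast at hAB; linear_combination hσc / 2 - hAB / 2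
  have := target_lt a ha n K σ (a / 2) hσ (by linarith) hm hNV hNV' w hw z
    (by linarith) (by
      have := congrArg Complex.re e2
      simp at this
      linarith)
  rw [e1, e2] at this
  have e3 : A + a - 2 * ((a / 2 : ℝ) : ℂ) = A := by push_cast; ring
  have e4 : B + 2 * ((a / 2 : ℝ) : ℂ) = B + a := by push_cast; ring
  rw [e3, e4] at this
  exact this

theorem NV_all (a : ℝ) (ha : 1 ≤ a) (n : ℕ) : ∀ M : ℕ, NV a n M := by
  induction n with
  | zero =>
    intro M A B w hAB hM h1 h2 hw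
    obtain ⟨hre, him⟩ := sum_re_im (M := (M : ℝ)) (by rw [hAB]; push_cast; rfl)
    simp only [Hp, eval_C]
    simp at hre hM
    have hM' : (0:ℝ) < M := by exact_mod_cast hM
    refine mul_ne_zero (Complex.Gamma_ne_zero_of_re_pos (by linarith))
      (Complex.Gamma_ne_zero_of_re_pos (by simp; linarith))
  | succ n ih =>
    intro M A B w hAB hM h1 h2 hw
    obtain ⟨K, rfl⟩ : ∃ K, M = K + 1 := by
      refine ⟨M - 1, ?_⟩
      have : 0 < M := by
        by_contra h
        push Not at h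
        have : M = 0 := by omega
        rw [this] at hM
        push_cast at hM
        nlinarith [(Nat.cast_nonneg n : (0:ℝ) ≤ n)]
      omega
    obtain ⟨hre, him⟩ := sum_re_im (M := ((K + 1 : ℕ) : ℝ)) (by rw [hAB]; push_cast; rfl)
    have hlt := fun v hv => strict_AB a ha n K (ih (K + 1)) (ih K) A B v hAB hM h1 h2 hv
    have hH : ∀ v : ℂ, ‖v‖ ≤ 1 → (Hp a n (A + a) B).eval v ≠ 0 := by
      intro v hv
      refine ih (K + 1) _ _ _ ?_ ?_ ?_ h2 hv
      · push_cast at hAB ⊢; linear_combination hAB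
      · push_cast at hM ⊢; linarith
      · simp; linarith
    simp only [Hp, eval_add, eval_mul, eval_X, eval_C]
    rcases hw.eq_or_lt with hw | hw
    · intro h0
      have h3 := hlt w hw
      have h4 : (Hp a n (A + a) B).eval w = -(w * (B * (Fp a n A (B + a)).eval w)) := by
        linear_combination h0
      rw [h4, norm_neg, norm_mul w, hw, one_mul] at h3
      exact lt_irrefl _ h3
    · have hQ : ‖(B * (Fp a n A (B + a)).eval w) / (Hp a n (A + a) B).eval w‖ ≤ 1 := by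
        refine Complex.norm_le_of_forall_mem_frontier_norm_le (U := Metric.ball (0:ℂ) 1)
          (f := fun v => (B * (Fp a n A (B + a)).eval v) / (Hp a n (A + a) B).eval v)
          Metric.isBounded_ball ?_ ?_ ?_
        · apply DifferentiableOn.diffContOnCl
          intro v hv
          rw [closure_ball (0:ℂ) one_ne_zero] at hv
          apply DifferentiableAt.differentiableWithinAt
          refine DifferentiableAt.div (DifferentiableAt.const_mul (Polynomial.differentiable _ _) _)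
            (Polynomial.differentiable _ _) (hH v (by simpa using hv))
        · intro v hv
          rw [frontier_ball (0:ℂ) one_ne_zero] at hv
          have hv' : ‖v‖ = 1 := by simpa using hv
          rw [norm_div]
          exact div_le_one_of_le₀ (hlt v hv').le (norm_nonneg _)
        · apply subset_closure
          simpa using hw
      intro h0
      rw [norm_div, div_le_one (norm_pos_iff.2 (hH w hw.le))] at hQ
      have h4 : (Hp a n (A + a) B).eval w = -(w * (B * (Fp a n A (B + a)).eval w)) := by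
        linear_combination h0
      have h5 : 0 < ‖(Hp a n (A + a) B).eval w‖ := norm_pos_iff.2 (hH w hw.le)
      have h6 : ‖(Hp a n (A + a) B).eval w‖ = ‖w‖ * ‖(B * (Fp a n A (B + a)).eval w)‖ := by
        conv_lhs => rw [h4]
        rw [norm_neg, norm_mul w]
      nlinarith [norm_nonneg w, norm_nonneg (B * (Fp a n A (B + a)).eval w)]

/-- **Key inequality**. -/
theorem key (a : ℝ) (ha : 1 ≤ a) (n K : ℕ)
    (A B w : ℂ) (hAB : A + B + (n + 1 : ℕ) * a = (K + 1 : ℕ)) (hM : ((n + 1 : ℕ) : ℝ) * a < (K + 1 : ℕ))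
    (h1 : B.re < A.re) (h2 : -1 < B.re) (hw : ‖w‖ = 1) :
    ‖B * (Fp a n A (B + a)).eval w‖ < ‖(Hp a n (A + a) B).eval w‖ :=
  strict_AB a ha n K (NV_all a ha n (K + 1)) (NV_all a ha n K) A B w hAB hM h1 h2 hw

end Pool.Agent.P49a735
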