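import Pool.Agent.Lib.P49a735.Package

set_option autoImplicit false

namespace Pool.Agent.P49a735

open Polynomial Complex ComplexConjugate Filter Topology Set

theorem pN_deg (N : ℕ) : (pN N).natDegree = 2 * N + 1 ∧ (pN N).leadingCoeff = 1 := by
  induction N with
  | zero => simp [pN]
  | succ N ih =>
    have hm : (pN N).Monic := ih.2
    have h1 : ((X - C ((N + 1 : ℕ) : ℝ)) * (X + C ((N + 1 : ℕ) : ℝ))).Monic :=
      (monic_X_sub_C _).mul (monic_X_add_C _)
    have h2 : ((X - C ((N + 1 : ℕ) : ℝ)) * (X + C ((N + 1 : ℕ) : ℝ))).natDegree = 2 := by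
      rw [(monic_X_sub_C _).natDegree_mul (monic_X_add_C _), natDegree_X_sub_C, natDegree_X_add_C]
    constructor
    · rw [pN, h1.natDegree_mul hm, h2, ih.1]; ring
    · rw [pN]; exact h1.mul hm

theorem pN_par (N : ℕ) : (pN N).comp (-X) = C (-1) * pN N := by
  induction N with
  | zero => simp [pN]
  | succ N ih =>
    rw [pN, mul_comp, ih, mul_comp]
    simp only [sub_comp, add_comp, X_comp, C_comp]
    ring

theorem P_par (l : ℝ) (N n : ℕ) : (P l N n).comp (-X) = C ((-1) ^ (n + 1)) * P l N n := by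
  induction n with
  | zero => rw [P_zero, pN_par]; simp
  | succ n ih =>
    rw [P_succ, dl_par l _ _ ih]
    congr 2
    ring

theorem P_deg (l : ℝ) (hl : 1 / 2 ≤ l) (N n : ℕ) (hn : n ≤ 2 * N + 1) :
    (P l N n).natDegree = 2 * N + 1 - n ∧ 1 ≤ (P l N n).leadingCoeff := by
  induction n with
  | zero => rw [P_zero]; exact ⟨(pN_deg N).1, (pN_deg N).2.ge⟩
  | succ n ih =>
    obtain ⟨h1, h2⟩ := ih (by omega)
    obtain ⟨h3, h4⟩ := dl_degree l (by linarith) (P l N n) (2 * N + 1 - (n + 1)) (by rw [h1]; omega)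
    rw [P_succ]
    refine ⟨h3, ?_⟩
    rw [h4]
    have a1 : (0:ℝ) ≤ ((2 * N + 1 - (n + 1) : ℕ) : ℝ) := Nat.cast_nonneg _
    have a2 : 1 ≤ 2 * l * (((2 * N + 1 - (n + 1) : ℕ) : ℝ) + 1) := by nlinarith
    calc (1:ℝ) = 1 * 1 := by ring
      _ ≤ _ := mul_le_mul a2 h2 (by norm_num) (by linarith)

theorem P_par' (l : ℝ) (hl : 1 / 2 ≤ l) (N n : ℕ) (hn : n ≤ 2 * N + 1) :
    (P l N n).comp (-X) = C ((-1) ^ (P l N n).natDegree) * P l N n := by
  rw [P_par, (P_deg l hl N n hn).1]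
  congr 2
  have : (-1 : ℝ) ^ (n + 1) = (-1) ^ (2 * N + 1 - n) := by
    rcases Nat.even_or_odd (n + 1) with h | h
    · have h2 : Even (2 * N + 1 - n) := by
        obtain ⟨a, ha⟩ := h
        exact ⟨N + 1 - a, by omega⟩
      rw [h.neg_one_pow, h2.neg_one_pow]
    · have h2 : Odd (2 * N + 1 - n) := by
        obtain ⟨a, ha⟩ := h
        exact ⟨N - a, by omega⟩
      rw [h.neg_one_pow, h2.neg_one_pow]
  exact this

theorem P_neg (l : ℝ) (N n : ℕ) :
    (cx (P l N n)).roots.map (fun x => -x) = (cx (P l N n)).roots :=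
  cx_roots_neg _ ((-1) ^ (n + 1)) (by simp) (P_par l N n)

theorem Zc_le_step (l : ℝ) (hl : 1 / 2 ≤ l) (N n : ℕ) (hn : n + 1 ≤ 2 * N + 1)
    (hs : ∀ ζ ∈ (cx (P l N n)).roots, ζ.re ≠ l) : Zc (P l N (n + 1)) 0 ≤ Zc (P l N n) l := by
  obtain ⟨h1, h2⟩ := P_deg l hl N n (by omega)
  obtain ⟨h3, h4⟩ := P_deg l hl N (n + 1) hn
  obtain ⟨S, hS1, hS2⟩ := imag_zeros (P l N n) (by linarith) l (P_par' l hl N n (by omega)) hs
  have hne : P l N (n + 1) ≠ 0 := by intro h; rw [h] at h4; simp at h4; linarith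
  have := sym_count (P l N (n + 1)) hne (P_neg l N (n + 1)) S (by rw [P_succ]; exact hS2)
  omega

/-- all roots imaginary once there are no roots with real part `≥ l` -/
theorem imag_step (l : ℝ) (hl : 1 / 2 ≤ l) (N n : ℕ) (hn : n + 1 ≤ 2 * N + 1)
    (hs : ∀ ζ ∈ (cx (P l N n)).roots, ζ.re < l) :
    ∀ ζ ∈ (cx (P l N (n + 1))).roots, ζ.re = 0 := by
  have h0 : Zc (P l N n) l = 0 := by
    unfold Zc
    rw [Multiset.countP_eq_zero]
    intro ζ hζ
    exact not_lt.2 (hs ζ hζ).le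
  have h1 := Zc_le_step l hl N n hn (fun ζ hζ => (hs ζ hζ).ne)
  have h2 : Zc (P l N (n + 1)) 0 = 0 := by omega
  unfold Zc at h2
  rw [Multiset.countP_eq_zero] at h2
  intro ζ hζ
  have h3 : -ζ ∈ (cx (P l N (n + 1))).roots := by
    rw [← P_neg l N (n + 1), Multiset.mem_map]
    exact ⟨ζ, hζ, rfl⟩
  have h4 := h2 ζ hζ
  have h5 := h2 (-ζ) h3
  simp at h4 h5
  linarith

theorem claimA (l : ℝ) (hl : 1 / 2 ≤ l) (N : ℕ)
    (hgen : ∀ m : ℕ, 0 < sg l N (m + 1) → (P l N m).eval l ≠ 0) (n : ℕ) (hn : 0 < sg l N n) :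
    (∀ ζ : ℂ, (cx (P l N n)).eval ζ = 0 → ζ.re = 0 ∨ ζ.im = 0) ∧
    (∀ y, 0 < y → y < sg l N n → (P l N n).eval y ≠ 0 →
      (Zc (P l N n) y : ℤ) = ⌊phi l N n y⌋) := by
  induction n with
  | zero =>
    have hlc := (pN_deg N).2
    have hne : pN N ≠ 0 := by intro h; rw [h] at hlc; simp at hlc
    refine package (P l N 0) (by rw [P_zero, hlc]; norm_num) (P_neg l N 0) (sg l N 0) hn
      (phi l N 0) (fun x h1 h2 => phi_cont l N hl 0 x hn h1 h2) (phi_sg l N 0)
      (fun x h1 h2 => phi_eval l N hl 0 x hn h1 h2) N ?_ ?_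
    · have := sym_count (P l N 0) hne (P_neg l N 0) {0} (by
        intro y hy
        rw [Finset.mem_singleton] at hy
        subst hy
        have h2 := cx_eval_real (P l N 0) 0
        rw [P_zero] at h2 ⊢
        have h3 := pN_eval_int N 0 (by omega) (by omega)
        rw [Int.cast_zero] at h3
        rw [h3] at h2
        simpa using h2)
      rw [P_zero, (pN_deg N).1, Finset.card_singleton] at this
      rw [P_zero]
      omega
    · have h1 : ∀ᶠ y in 𝓝[>] (0:ℝ), y < 1 := nhdsWithin_le_nhds (gt_mem_nhds one_pos)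
      filter_upwards [h1] with y hy
      rw [phi_zero]; linarith
  | succ n ih =>
    have hss := sg_succ l N n
    have hn0 : 0 < sg l N n := by linarith
    obtain ⟨ih1, ih2⟩ := ih hn0
    have hn1 : n + 1 ≤ 2 * N + 1 := by
      unfold sg at hn
      have h2 : ((n + 1 : ℕ) : ℝ) < 2 * N + 2 := by
        have h3 : (0:ℝ) ≤ ((n + 1 : ℕ) : ℝ) := Nat.cast_nonneg _
        nlinarith
      have h3 : ((n + 1 : ℕ) : ℝ) < ((2 * N + 2 : ℕ) : ℝ) := by push_cast at h2 ⊢; linarith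
      have h4 : n + 1 < 2 * N + 2 := by exact_mod_cast h3
      omega
    obtain ⟨h1, h2⟩ := P_deg l hl N n (by omega)
    obtain ⟨h3, h4⟩ := P_deg l hl N (n + 1) hn1
    have hne : P l N n ≠ 0 := by intro h; rw [h] at h2; simp at h2; linarith
    have hPl : (P l N n).eval l ≠ 0 := hgen n hn
    have hsimple : ∀ ζ ∈ (cx (P l N n)).roots, ζ.re ≠ l := by
      intro ζ hζ hre
      rw [mem_cx_roots hne] at hζ
      rcases ih1 ζ hζ with h | h
      · rw [h] at hre; linarith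
      · apply hPl
        have : ζ = (l : ℂ) := Complex.ext (by simpa using hre) (by simpa using h)
        rw [this, cx_eval_real] at hζ
        exact_mod_cast hζ
    have hq := ih2 l (by linarith) (by linarith) hPl
    refine package (P l N (n + 1)) (by linarith) (P_neg l N (n + 1)) (sg l N (n + 1)) hn
      (phi l N (n + 1)) (fun x h1 h2 => phi_cont l N hl (n + 1) x hn h1 h2) (phi_sg l N (n + 1))
      (fun x h1 h2 => phi_eval l N hl (n + 1) x hn h1 h2) (Zc (P l N n) l) ?_ ?_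
    · exact Zc_le_step l hl N n hn1 hsimple
    · have hgt : (Zc (P l N n) l : ℝ) < phi l N n l := by
        have h5 : ((Zc (P l N n) l : ℤ) : ℝ) ≤ phi l N n l := by rw [hq]; exact Int.floor_le _
        refine lt_of_le_of_ne (by exact_mod_cast h5) ?_
        intro heq
        obtain ⟨c, _, hc⟩ := phi_eval l N hl n l hn0 (by linarith) (by linarith)
        apply hPl
        rw [hc, ← heq, mul_comm Real.pi, Real.sin_nat_mul_pi, mul_zero]
      have hcont := phi_cont l N hl n l hn0 (by linarith) (by linarith)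
      have h6 : Tendsto (fun y : ℝ => phi l N n (y + l)) (𝓝[>] (0:ℝ)) (𝓝 (phi l N n l)) := by
        have h7 : Tendsto (fun y : ℝ => y + l) (𝓝[>] (0:ℝ)) (𝓝 l) := by
          have : Tendsto (fun y : ℝ => y + l) (𝓝 (0:ℝ)) (𝓝 (0 + l)) :=
            (continuous_id.add continuous_const).tendsto 0
          rw [zero_add] at this
          exact this.mono_left nhdsWithin_le_nhds
        exact hcont.tendsto.comp h7
      have h8 := h6.eventually (lt_mem_nhds hgt)
      have h9 : ∀ᶠ y in 𝓝[>] (0:ℝ), y < sg l N (n + 1) := nhdsWithin_le_nhds (gt_mem_nhds hn)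
      have h10 : ∀ᶠ y in 𝓝[>] (0:ℝ), 0 < y := self_mem_nhdsWithin
      filter_upwards [h8, h9, h10] with y a1 a2 a3
      have := phi_step l N hl n y hn a3 a2.le
      rw [abs_lt] at this
      linarith

theorem finite_roots_eventually (g : ℝ[X]) (hg : g ≠ 0) (x : ℝ) : ∀ᶠ y in 𝓝[≠] x, g.eval y ≠ 0 := by
  have hfin : ({y : ℝ | g.eval y = 0} \ {x}).Finite := by
    apply Set.Finite.subset (Polynomial.finite_setOfPred_isRoot hg)
    intro y hy
    exact hy.1
  have h1 : ∀ᶠ y in 𝓝 x, y ∉ ({y : ℝ | g.eval y = 0} \ {x}) :=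
    hfin.isClosed.isOpen_compl.mem_nhds (by simp)
  filter_upwards [nhdsWithin_le_nhds h1, self_mem_nhdsWithin] with y hy hy2
  intro h
  exact hy ⟨h, hy2⟩

theorem claimB (l : ℝ) (hl : 1 / 2 ≤ l) (N : ℕ)
    (hgen : ∀ m : ℕ, 0 < sg l N (m + 1) → (P l N m).eval l ≠ 0) (n : ℕ) (hn : 0 < sg l N n)
    (hn' : sg l N (n + 1) ≤ 0) (hnN : n ≤ 2 * N + 1) :
    ∀ ζ ∈ (cx (P l N n)).roots, ζ.re < l := by
  obtain ⟨h1, h2⟩ := claimA l hl N hgen n hn
  obtain ⟨h3, h4⟩ := P_deg l hl N n hnN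
  have hne : P l N n ≠ 0 := by intro h; rw [h] at h4; simp at h4; linarith
  have hss := sg_succ l N n
  have hcont := phi_cont l N hl n (sg l N n) hn hn le_rfl
  have e1 : ∀ᶠ y in 𝓝[<] (sg l N n), phi l N n y < 1 := by
    have := hcont.tendsto.mono_left (nhdsWithin_le_nhds (s := Set.Iio (sg l N n)))
    rw [phi_sg] at this
    exact this.eventually (gt_mem_nhds one_pos)
  have e2 : ∀ᶠ y in 𝓝[<] (sg l N n), (P l N n).eval y ≠ 0 :=
    (finite_roots_eventually _ hne (sg l N n)).filter_mono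
      (nhdsWithin_mono _ (fun y hy => ne_of_lt hy))
  have e3 : ∀ᶠ y in 𝓝[<] (sg l N n), 0 < y := nhdsWithin_le_nhds (lt_mem_nhds hn)
  have e4 : ∀ᶠ y in 𝓝[<] (sg l N n), y < sg l N n := self_mem_nhdsWithin
  obtain ⟨y, a1, a2, a3, a4⟩ := (e1.and (e2.and (e3.and e4))).exists
  have h5 := h2 y a3 a4 a2
  have h6 : ⌊phi l N n y⌋ < 1 := Int.floor_lt.2 (by exact_mod_cast a1)
  have h7 : Zc (P l N n) y = 0 := by omega
  unfold Zc at h7
  rw [Multiset.countP_eq_zero] at h7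
  intro ζ hζ
  have := h7 ζ hζ
  push Not at this
  linarith

theorem dichotomy (l : ℝ) (hl : 1 / 2 ≤ l) (N : ℕ)
    (hgen : ∀ m : ℕ, 0 < sg l N (m + 1) → (P l N m).eval l ≠ 0) (n : ℕ) (hn : n ≤ 2 * N + 1) :
    0 < sg l N n ∨ (∀ ζ ∈ (cx (P l N n)).roots, ζ.re = 0) := by
  induction n with
  | zero => left; unfold sg; push_cast; have : (0:ℝ) ≤ N := Nat.cast_nonneg N; linarith
  | succ n ih =>
    by_cases h1 : 0 < sg l N (n + 1)
    · left; exact h1
    · right
      rcases ih (by omega) with h2 | h2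
      · exact imag_step l hl N n hn (claimB l hl N hgen n h2 (not_lt.1 h1) (by omega))
      · exact imag_step l hl N n hn (fun ζ hζ => by rw [h2 ζ hζ]; linarith)

theorem cross_generic (l : ℝ) (hl : 1 / 2 ≤ l) (N : ℕ)
    (hgen : ∀ m : ℕ, 0 < sg l N (m + 1) → (P l N m).eval l ≠ 0) (n : ℕ) (hn : n ≤ 2 * N + 1) :
    ∀ ζ ∈ (cx (P l N n)).roots, ζ.re = 0 ∨ ζ.im = 0 := by
  obtain ⟨h3, h4⟩ := P_deg l hl N n hn
  have hne : P l N n ≠ 0 := by intro h; rw [h] at h4; simp at h4; linarith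
  intro ζ hζ
  rcases dichotomy l hl N hgen n hn with h | h
  · exact (claimA l hl N hgen n h).1 ζ ((mem_cx_roots hne).1 hζ)
  · left; exact h ζ hζ

theorem exists_V (N n : ℕ) (c : ℝ) : ∃ V : ℝ[X], ∀ l : ℝ, V.eval l = (P l N n).eval (c * l) := by
  induction n generalizing c with
  | zero => exact ⟨(pN N).comp (C c * X), fun l => by simp [P_zero]⟩
  | succ n ih =>
    obtain ⟨V1, h1⟩ := ih (c + 1)
    obtain ⟨V2, h2⟩ := ih (c - 1)
    refine ⟨V1 - V2, fun l => ?_⟩
    rw [eval_sub, h1, h2, P_succ, eval_dl]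
    congr 2 <;> ring

theorem big_nonzero (N n : ℕ) (hn : n ≤ 2 * N + 1) : (P (N + 1 : ℝ) N n).eval (N + 1 : ℝ) ≠ 0 := by
  have hN : (0:ℝ) ≤ N := Nat.cast_nonneg N
  have hl : (1:ℝ) / 2 ≤ (N + 1 : ℝ) := by linarith
  have hgen : ∀ m : ℕ, 0 < sg (N + 1 : ℝ) N (m + 1) → (P (N + 1 : ℝ) N m).eval (N + 1 : ℝ) ≠ 0 := by
    intro m hm
    exfalso
    unfold sg at hm
    push_cast at hm
    have : (0:ℝ) ≤ m := Nat.cast_nonneg m
    nlinarith
  obtain ⟨h3, h4⟩ := P_deg (N + 1 : ℝ) hl N n hn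
  have hne : P (N + 1 : ℝ) N n ≠ 0 := by intro h; rw [h] at h4; simp at h4; linarith
  intro h0
  have hmem : (((N:ℝ) + 1 : ℝ) : ℂ) ∈ (cx (P (N + 1 : ℝ) N n)).roots := by
    rw [mem_cx_roots hne, cx_eval_real, h0]; simp
  rcases dichotomy (N + 1 : ℝ) hl N hgen n hn with h | h
  · have hs1 : sg (N + 1 : ℝ) N (n + 1) ≤ 0 := by
      unfold sg
      push_cast
      have : (0:ℝ) ≤ n := Nat.cast_nonneg n
      nlinarith
    have := claimB (N + 1 : ℝ) hl N hgen n h hs1 hn _ hmem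
    simp at this
  · have := h _ hmem
    simp at this
    linarith

theorem generic_eventually (N : ℕ) (l1 : ℝ) :
    ∀ᶠ l in 𝓝[>] l1, ∀ n : ℕ, n ≤ 2 * N + 1 → (P l N n).eval l ≠ 0 := by
  have h : ∀ n ∈ Finset.range (2 * N + 2), ∀ᶠ l in 𝓝[>] l1, (P l N n).eval l ≠ 0 := by
    intro n hn
    rw [Finset.mem_range] at hn
    obtain ⟨V, hV⟩ := exists_V N n 1
    have hne : V ≠ 0 := by
      rintro rfl
      have := hV (N + 1)
      rw [one_mul, eval_zero] at this
      exact big_nonzero N n (by omega) this.symm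
    have h2 := (finite_roots_eventually V hne l1).filter_mono
      (nhdsWithin_mono _ (fun y (hy : l1 < y) => (ne_of_lt hy).symm) : 𝓝[>] l1 ≤ 𝓝[≠] l1)
    filter_upwards [h2] with l hl
    rw [hV, one_mul] at hl
    exact hl
  have h2 := (Finset.eventually_all (Finset.range (2 * N + 2))).2 h
  filter_upwards [h2] with l hl n hn
  exact hl n (by rw [Finset.mem_range]; omega)

theorem cont_joint (N n : ℕ) : Continuous (fun p : ℝ × ℂ => (cx (P p.1 N n)).eval p.2) := by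
  induction n with
  | zero =>
    simp only [P_zero]
    exact (cx (pN N)).continuous.comp continuous_snd
  | succ n ih =>
    simp only [P_succ, eval_cx_dl]
    refine Continuous.sub ?_ ?_
    · exact ih.comp (f := fun p : ℝ × ℂ => (p.1, p.2 + (p.1 : ℂ))) (by fun_prop)
    · exact ih.comp (f := fun p : ℝ × ℂ => (p.1, p.2 - (p.1 : ℂ))) (by fun_prop)

theorem norm_lower (g : ℝ[X]) (hlc : 1 ≤ g.leadingCoeff)
    (hcross : ∀ ζ ∈ (cx g).roots, ζ.re = 0 ∨ ζ.im = 0) (z : ℂ) (δ : ℝ) (hδ : 0 ≤ δ)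
    (h1 : δ ≤ |z.re|) (h2 : δ ≤ |z.im|) : δ ^ g.natDegree ≤ ‖(cx g).eval z‖ := by
  rw [(IsAlgClosed.splits (cx g)).eval_eq_prod_roots, cx_leadingCoeff, norm_mul, ← cx_card]
  have h3 : ∀ s : Multiset ℂ, (∀ ζ ∈ s, ζ.re = 0 ∨ ζ.im = 0) →
      δ ^ s.card ≤ ‖(s.map (fun ζ => z - ζ)).prod‖ := by
    intro s
    induction s using Multiset.induction_on with
    | empty => intro _; simp
    | cons a s ih =>
      intro hs
      rw [Multiset.map_cons, Multiset.prod_cons, Multiset.card_cons, norm_mul, pow_succ, mul_comm]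
      apply mul_le_mul _ (ih (fun ζ hζ => hs ζ (Multiset.mem_cons_of_mem hζ))) (by positivity)
        (norm_nonneg _)
      rcases hs a (Multiset.mem_cons_self a s) with h | h
      · have := Complex.abs_re_le_norm (z - a)
        rw [Complex.sub_re, h, sub_zero] at this
        linarith
      · have := Complex.abs_im_le_norm (z - a)
        rw [Complex.sub_im, h, sub_zero] at this
        linarith
  have h4 := h3 _ hcross
  have h5 : (1:ℝ) ≤ ‖((g.leadingCoeff : ℝ) : ℂ)‖ := by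
    rw [Complex.norm_real, Real.norm_eq_abs]
    exact hlc.trans (le_abs_self _)
  calc δ ^ (cx g).roots.card = 1 * δ ^ (cx g).roots.card := by ring
    _ ≤ _ := mul_le_mul h5 h4 (by positivity) (by positivity)

/-- the case `l ≥ 1/2` -/
theorem cross_all (l : ℝ) (hl : 1 / 2 ≤ l) (N : ℕ) (n : ℕ) (hn : n ≤ 2 * N + 1) (z : ℂ)
    (hz : (cx (P l N n)).eval z = 0) : z.re = 0 ∨ z.im = 0 := by
  by_contra hcon
  push Not at hcon
  obtain ⟨hre, him⟩ := hcon
  set δ := min |z.re| |z.im| with hδ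
  have hδpos : 0 < δ := lt_min (abs_pos.2 hre) (abs_pos.2 him)
  have h1 : ∀ᶠ l' in 𝓝[>] l, δ ^ (2 * N + 1 - n) ≤ ‖(cx (P l' N n)).eval z‖ := by
    filter_upwards [generic_eventually N l, self_mem_nhdsWithin] with l' hgen hl'
    have hl2 : 1 / 2 ≤ l' := by
      have : l < l' := hl'
      linarith
    rw [← (P_deg l' hl2 N n hn).1]
    apply norm_lower _ (P_deg l' hl2 N n hn).2 _ z δ hδpos.le (min_le_left _ _) (min_le_right _ _)
    apply cross_generic l' hl2 N _ n hn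
    intro m hm
    apply hgen m
    unfold sg at hm
    have h2 : ((m + 1 : ℕ) : ℝ) < 2 * N + 2 := by
      have h3 : (0:ℝ) ≤ ((m + 1 : ℕ) : ℝ) := Nat.cast_nonneg _
      nlinarith
    have h3 : ((m + 1 : ℕ) : ℝ) < ((2 * N + 2 : ℕ) : ℝ) := by push_cast at h2 ⊢; linarith
    have h4 : m + 1 < 2 * N + 2 := by exact_mod_cast h3
    omega
  have h2 : Tendsto (fun l' : ℝ => ‖(cx (P l' N n)).eval z‖) (𝓝[>] l) (𝓝 ‖(cx (P l N n)).eval z‖) := by
    have h3 : Continuous (fun l' : ℝ => ‖(cx (P l' N n)).eval z‖) :=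
      ((cont_joint N n).comp (f := fun l' : ℝ => (l', z)) (by fun_prop)).norm
    exact (h3.tendsto l).mono_left nhdsWithin_le_nhds
  have h4 := ge_of_tendsto h2 h1
  rw [hz, norm_zero] at h4
  have : 0 < δ ^ (2 * N + 1 - n) := by positivity
  linarith

end Pool.Agent.P49a735
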