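import Pool.Agent.Lib.P49a735.Main

set_option autoImplicit false

namespace Pool.Agent.P49a735

open Polynomial Complex ComplexConjugate Filter Topology Set

def Mesh (l : ℝ) (D : ℕ) (f : ℝ[X]) : Prop :=
  ∃ (c : ℝ) (a : ℕ → ℝ), c ≠ 0 ∧ (∀ i, i + 1 < D → a i + 2 * l < a (i + 1)) ∧
    f = C c * ∏ i ∈ Finset.range D, (X - C (a i))

theorem mesh_mono {l : ℝ} (hl : 0 ≤ l) {D : ℕ} {a : ℕ → ℝ} (ha : ∀ i, i + 1 < D → a i + 2 * l < a (i + 1))
    {i j : ℕ} (hij : i < j) (hj : j < D) : a i < a j := by
  induction j with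
  | zero => omega
  | succ j ih =>
    rcases Nat.lt_succ_iff_lt_or_eq.1 hij with h | h
    · have := ih h (by omega)
      have := ha j hj
      linarith
    · subst h
      have := ha i hj
      linarith

theorem mesh_eval {c : ℝ} {a : ℕ → ℝ} {D : ℕ} (hc : c ≠ 0) (x : ℝ) :
    (C c * ∏ i ∈ Finset.range D, (X - C (a i))).eval x = 0 ↔ ∃ i < D, x = a i := by
  rw [eval_mul, eval_C, eval_prod, mul_eq_zero, Finset.prod_eq_zero_iff]
  simp only [hc, false_or, Finset.mem_range, eval_sub, eval_X, eval_C, sub_eq_zero]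

theorem mesh_step (l : ℝ) (hl : 0 < l) (D : ℕ) (f : ℝ[X]) (hf : Mesh l (D + 1) f) :
    Mesh l D (dl l f) := by
  obtain ⟨c, a, hc, ha, rfl⟩ := hf
  set f : ℝ[X] := C c * ∏ i ∈ Finset.range (D + 1), (X - C (a i)) with hfdef
  have hmon : (∏ i ∈ Finset.range (D + 1), (X - C (a i))).Monic :=
    monic_prod_of_monic _ _ (fun i _ => monic_X_sub_C _)
  have hdeg : f.natDegree = D + 1 := by
    rw [hfdef, natDegree_C_mul hc, natDegree_prod_of_monic _ _ (fun i _ => monic_X_sub_C _)]
    simp
  obtain ⟨hgd, hglc⟩ := dl_degree l hl.ne' f D hdeg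
  have hzero : ∀ x : ℝ, f.eval x = 0 ↔ ∃ i < D + 1, x = a i := fun x => mesh_eval hc x
  -- the new roots
  have hb : ∀ i, i < D → ∃ b : ℝ, a i + l < b ∧ b < a (i + 1) - l ∧ (dl l f).eval b = 0 := by
    intro i hi
    have hgap := ha i (by omega)
    have h1 : (dl l f).eval (a i + l) = f.eval (a i + 2 * l) := by
      rw [eval_dl]
      have : f.eval (a i + l - l) = 0 := by
        rw [add_sub_cancel_right]; exact (hzero _).2 ⟨i, by omega, rfl⟩
      rw [this, sub_zero]; congr 1; ring
    have h2 : (dl l f).eval (a (i + 1) - l) = -f.eval (a (i + 1) - 2 * l) := by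
      rw [eval_dl]
      have : f.eval (a (i + 1) - l + l) = 0 := by
        rw [sub_add_cancel]; exact (hzero _).2 ⟨i + 1, by omega, rfl⟩
      rw [this, zero_sub]; congr 2; ring
    -- f has no zero between a i and a (i+1)
    have hnz : ∀ x, a i < x → x < a (i + 1) → f.eval x ≠ 0 := by
      intro x hx1 hx2 h0
      obtain ⟨j, hj, rfl⟩ := (hzero x).1 h0
      rcases lt_trichotomy j i with h | h | h
      · have := mesh_mono hl.le ha h (by omega)
        linarith
      · subst h; exact lt_irrefl _ hx1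
      · rcases Nat.lt_or_ge (i + 1) j with h3 | h3
        · have := mesh_mono hl.le ha h3 hj
          linarith
        · have : j = i + 1 := by omega
          subst this; exact lt_irrefl _ hx2
    have hprod : 0 < f.eval (a i + 2 * l) * f.eval (a (i + 1) - 2 * l) := by
      by_contra hneg
      have hn1 := hnz (a i + 2 * l) (by linarith) (by linarith)
      have hn2 := hnz (a (i + 1) - 2 * l) (by linarith) (by linarith)
      have hlt : f.eval (a i + 2 * l) * f.eval (a (i + 1) - 2 * l) < 0 :=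
        lt_of_le_of_ne (not_lt.1 hneg) (mul_ne_zero hn1 hn2)
      have hsub : uIcc (a i + 2 * l) (a (i + 1) - 2 * l) ⊆ Ioo (a i) (a (i + 1)) := by
        intro x hx
        rw [mem_uIcc] at hx
        rcases hx with ⟨h3, h4⟩ | ⟨h3, h4⟩
        · exact ⟨by linarith, by linarith⟩
        · exact ⟨by linarith, by linarith⟩
      have hivt := intermediate_value_uIcc (a := a i + 2 * l) (b := a (i + 1) - 2 * l)
        (f := fun x => f.eval x) f.continuous.continuousOn
      have h0mem : (0:ℝ) ∈ uIcc (f.eval (a i + 2 * l)) (f.eval (a (i + 1) - 2 * l)) := by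
        rw [mem_uIcc]
        rcases mul_neg_iff.1 hlt with ⟨h3, h4⟩ | ⟨h3, h4⟩
        · right; exact ⟨h4.le, h3.le⟩
        · left; exact ⟨h3.le, h4.le⟩
      obtain ⟨x, hx, hx0⟩ := hivt h0mem
      have := hsub hx
      exact hnz x this.1 this.2 hx0
    have hlt : (dl l f).eval (a i + l) * (dl l f).eval (a (i + 1) - l) < 0 := by
      rw [h1, h2]; linarith
    rcases mul_neg_iff.1 hlt with ⟨h3, h4⟩ | ⟨h3, h4⟩
    · obtain ⟨x, hx, hx0⟩ := intermediate_value_Ioo' (by linarith : a i + l ≤ a (i + 1) - l)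
        (f := fun x => (dl l f).eval x) (dl l f).continuous.continuousOn ⟨h4, h3⟩
      exact ⟨x, hx.1, hx.2, hx0⟩
    · obtain ⟨x, hx, hx0⟩ := intermediate_value_Ioo (by linarith : a i + l ≤ a (i + 1) - l)
        (f := fun x => (dl l f).eval x) (dl l f).continuous.continuousOn ⟨h3, h4⟩
      exact ⟨x, hx.1, hx.2, hx0⟩
  choose! b hb using hb
  have hgapb : ∀ i, i + 1 < D → b i + 2 * l < b (i + 1) := by
    intro i hi
    have h1 := (hb i (by omega)).2.1
    have h2 := (hb (i + 1) hi).1
    linarith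
  have hlc : f.leadingCoeff ≠ 0 := by
    rw [hfdef, leadingCoeff_mul, leadingCoeff_C, hmon.leadingCoeff, mul_one]; exact hc
  have hglc0 : (dl l f).leadingCoeff ≠ 0 := by
    rw [hglc]
    have : (D:ℝ) + 1 ≠ 0 := by positivity
    exact mul_ne_zero (mul_ne_zero (mul_ne_zero two_ne_zero hl.ne') this) hlc
  have hg : dl l f ≠ 0 := leadingCoeff_ne_zero.1 hglc0
  refine ⟨(dl l f).leadingCoeff, b, hglc0, hgapb, ?_⟩
  have hinj : Set.InjOn b (Finset.range D : Set ℕ) := by
    intro i hi j hj hij
    rw [Finset.mem_coe, Finset.mem_range] at hi hj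
    by_contra hne
    rcases Nat.lt_or_gt_of_ne hne with h | h
    · have := mesh_mono hl.le hgapb h hj
      linarith
    · have := mesh_mono hl.le hgapb h hi
      linarith
  have hle : ((Finset.range D).val.map b) ≤ (dl l f).roots := by
    have : ((Finset.range D).val.map b) = ((Finset.range D).image b).val := by
      rw [Finset.image_val_of_injOn hinj]
    rw [this, Multiset.le_iff_subset (Finset.nodup _)]
    intro x hx
    have hx' : x ∈ (Finset.range D).image b := hx
    rw [Finset.mem_image] at hx'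
    obtain ⟨i, hi, rfl⟩ := hx'
    rw [mem_roots hg]
    exact (hb i (Finset.mem_range.1 hi)).2.2
  have hcard : (dl l f).roots.card ≤ D := by
    rw [← hgd]; exact card_roots' _
  have heq : ((Finset.range D).val.map b) = (dl l f).roots := by
    apply Multiset.eq_of_le_of_card_le hle
    simpa using hcard
  have h3 : (dl l f).roots.card = (dl l f).natDegree := by
    rw [← heq, hgd]; simp
  have h4 := C_leadingCoeff_mul_prod_multiset_X_sub_C h3
  rw [← heq, Multiset.map_map] at h4
  conv_lhs => rw [← h4]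
  rfl

theorem pN_range (N : ℕ) : pN N = ∏ i ∈ Finset.range (2 * N + 1), (X - C ((i : ℝ) - N)) := by
  induction N with
  | zero => simp [pN]
  | succ N ih =>
    have e : 2 * (N + 1) + 1 = (2 * N + 1) + 1 + 1 := by ring
    rw [e, Finset.prod_range_succ, Finset.prod_range_succ', pN, ih]
    have h1 : ∏ k ∈ Finset.range (2 * N + 1), (X - C (((k + 1 : ℕ) : ℝ) - ((N + 1 : ℕ) : ℝ))) =
        ∏ i ∈ Finset.range (2 * N + 1), (X - C ((i : ℝ) - N)) := by
      apply Finset.prod_congr rfl
      intro i _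
      congr 2
      push_cast; ring
    rw [h1]
    have h2 : (C (((2 * N + 1 + 1 : ℕ) : ℝ) - ((N + 1 : ℕ) : ℝ)) : ℝ[X]) = C ((N + 1 : ℕ) : ℝ) := by
      congr 1; push_cast; ring
    have h3 : (C (((0 : ℕ) : ℝ) - ((N + 1 : ℕ) : ℝ)) : ℝ[X]) = -C ((N + 1 : ℕ) : ℝ) := by
      rw [← C_neg]; congr 1; push_cast; ring
    rw [h2, h3]
    ring

theorem mesh_pN (l : ℝ) (hl : l < 1 / 2) (N : ℕ) : Mesh l (2 * N + 1) (pN N) := by
  refine ⟨1, fun i => (i : ℝ) - N, one_ne_zero, ?_, ?_⟩
  · intro i _
    push_cast; linarith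
  · rw [C_1, one_mul]; exact pN_range N

theorem mesh_P (l : ℝ) (hl0 : 0 < l) (hl : l < 1 / 2) (N n : ℕ) (hn : n ≤ 2 * N + 1) :
    Mesh l (2 * N + 1 - n) (P l N n) := by
  induction n with
  | zero => exact mesh_pN l hl N
  | succ n ih =>
    rw [P_succ]
    apply mesh_step l hl0
    have : 2 * N + 1 - (n + 1) + 1 = 2 * N + 1 - n := by omega
    rw [this]
    exact ih (by omega)

theorem cross_small (l : ℝ) (hl0 : 0 < l) (hl : l < 1 / 2) (N n : ℕ) (hn : n ≤ 2 * N + 1) (z : ℂ)
    (hz : (cx (P l N n)).eval z = 0) : z.im = 0 := by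
  obtain ⟨c, a, hc, _, h⟩ := mesh_P l hl0 hl N n hn
  rw [h] at hz
  unfold cx at hz
  rw [Polynomial.map_mul, Polynomial.map_prod, eval_mul, eval_prod, mul_eq_zero,
    Finset.prod_eq_zero_iff] at hz
  rcases hz with hz | ⟨i, _, hi⟩
  · simp at hz; exact absurd hz hc
  · simp only [Polynomial.map_sub, Polynomial.map_X, Polynomial.map_C, eval_sub, eval_X, eval_C,
      sub_eq_zero] at hi
    rw [hi]; simp

/-- derivative case -/
theorem deriv_real (N n : ℕ) (hn : n ≤ 2 * N + 1) :
    (derivative^[n] (cx (pN N))) ≠ 0 ∧ (derivative^[n] (cx (pN N))).natDegree = 2 * N + 1 - n ∧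
    ∀ z : ℂ, (derivative^[n] (cx (pN N))).eval z = 0 → z.im = 0 := by
  induction n with
  | zero =>
    have hlc := (pN_deg N).2
    have hne : pN N ≠ 0 := by intro h; rw [h] at hlc; simp at hlc
    refine ⟨cx_ne_zero hne, ?_, ?_⟩
    · simp only [Function.iterate_zero, id_eq]
      rw [cx_natDegree, (pN_deg N).1]; rfl
    · intro z hz
      simp only [Function.iterate_zero, id_eq] at hz
      exact cross_small (1 / 4) (by norm_num) (by norm_num) N 0 (by omega) z hz
  | succ n ih =>
    obtain ⟨h1, h2, h3⟩ := ih (by omega)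
    rw [Function.iterate_succ_apply']
    set Q := derivative^[n] (cx (pN N)) with hQ
    have hd : (derivative Q).natDegree = 2 * N + 1 - (n + 1) := by
      rw [natDegree_derivative, h2]; omega
    have hpos : 0 < Q.degree := by
      rw [← natDegree_pos_iff_degree_pos, h2]; omega
    have hne : derivative Q ≠ 0 := by
      intro h
      have := derivative_eq_zero.1 h
      rw [h2] at this; omega
    refine ⟨hne, hd, ?_⟩
    intro z hz
    have hmem : z ∈ (derivative Q).rootSet ℂ := by
      rw [mem_rootSet]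
      exact ⟨hne, by simpa using hz⟩
    have h4 := rootSet_derivative_subset_convexHull_rootSet hpos hmem
    have h5 : convexHull ℝ (Q.rootSet ℂ) ⊆ {z : ℂ | z.im = 0} := by
      apply convexHull_min
      · intro w hw
        rw [mem_rootSet] at hw
        exact h3 w (by simpa using hw.2)
      · have : {z : ℂ | z.im = 0} = Complex.imLm ⁻¹' {0} := by ext; simp
        rw [this]
        exact (convex_singleton (0:ℝ)).linear_preimage Complex.imLm
    exact h5 h4

end Pool.Agent.P49a735
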