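import Pool.Agent.Lib.P49a735.Final

set_option autoImplicit false

namespace Pool.Agent.P49a735Own

open Polynomial Complex ComplexConjugate Filter Topology Set
open Pool.Agent.P49a735 (cx pN P dl P_zero P_succ eval_cx_dl prod_eq cx_ne_zero cx_natDegree
  cx_leadingCoeff pN_deg dl_degree P_deg sg dichotomy generic_eventually norm_lower mem_cx_roots
  cont_joint cross_all cross_small mesh_P Mesh mesh_mono deriv_real cx_card)

/-- the center divided difference of a complex polynomial -/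
noncomputable def cdd (l : ℝ) (p : ℂ[X]) : ℂ[X] :=
  if l = 0 then derivative p
  else C (1 / (2 * (l : ℂ))) * (p.comp (X + C (l : ℂ)) - p.comp (X - C (l : ℂ)))

/-- `p_N = ∏_{k=-N}^{N} (X - k)` -/
noncomputable def pPoly (N : ℕ) : ℂ[X] :=
  ∏ k ∈ Finset.Icc (-(N : ℤ)) (N : ℤ), (X - C (k : ℂ))

theorem pPoly_eq (N : ℕ) : pPoly N = cx (pN N) := by
  apply Polynomial.funext
  intro w
  rw [← prod_eq N w, pPoly, eval_prod]
  simp

theorem cdd_iter (l : ℝ) (hl : l ≠ 0) (N n : ℕ) :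
    (cdd l)^[n] (pPoly N) = C ((1 / (2 * (l : ℂ))) ^ n) * cx (P l N n) := by
  induction n with
  | zero => simp [P_zero, pPoly_eq]
  | succ n ih =>
    rw [Function.iterate_succ_apply', ih]
    apply Polynomial.funext
    intro z
    rw [eval_mul, eval_C, P_succ, eval_cx_dl]
    simp only [cdd, hl, if_false, eval_mul, eval_C, eval_sub, eval_comp, eval_add, eval_X]
    ring

theorem cdd_neg (l : ℝ) : cdd (-l) = cdd l := by
  funext p
  by_cases hl : l = 0
  · subst hl; simp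
  · have h2 : (l : ℂ) ≠ 0 := by exact_mod_cast hl
    apply Polynomial.funext
    intro z
    simp only [cdd, hl, neg_eq_zero, if_false, eval_mul, eval_C, eval_sub, eval_comp, eval_add,
      eval_X, ofReal_neg]
    have e1 : z - -(l : ℂ) = z + l := by ring
    have e2 : z + -(l : ℂ) = z - l := by ring
    rw [e1, e2]
    field_simp
    ring

/-- degree of `P l N n` for every `l ≠ 0` -/
theorem P_deg' (l : ℝ) (hl : l ≠ 0) (N n : ℕ) (hn : n ≤ 2 * N + 1) :
    (P l N n).natDegree = 2 * N + 1 - n ∧ (P l N n).leadingCoeff ≠ 0 := by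
  induction n with
  | zero => rw [P_zero]; exact ⟨(pN_deg N).1, by rw [(pN_deg N).2]; exact one_ne_zero⟩
  | succ n ih =>
    obtain ⟨h1, h2⟩ := ih (by omega)
    obtain ⟨h3, h4⟩ := dl_degree l hl (P l N n) (2 * N + 1 - (n + 1)) (by rw [h1]; omega)
    rw [P_succ]
    refine ⟨h3, ?_⟩
    rw [h4]
    have h5 : (((2 * N + 1 - (n + 1) : ℕ) : ℝ) + 1) ≠ 0 := by positivity
    exact mul_ne_zero (mul_ne_zero (mul_ne_zero two_ne_zero hl) h5) h2

/-- once `n l ≥ N + 1`, all zeros are purely imaginary -/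
theorem imag_all (l : ℝ) (hl : 1 / 2 ≤ l) (N n : ℕ) (hn : n ≤ 2 * N + 1)
    (hnl : (N : ℝ) + 1 ≤ n * l) (z : ℂ) (hz : (cx (P l N n)).eval z = 0) : z.re = 0 := by
  by_contra hre
  set δ := |z.re| with hδ
  have hδpos : 0 < δ := abs_pos.2 hre
  have hn1 : 0 < (n : ℝ) := by
    by_contra h
    have h0 : (n : ℝ) ≤ 0 := not_lt.1 h
    have hN : (0:ℝ) ≤ N := Nat.cast_nonneg N
    nlinarith
  have key : ∀ s : Multiset ℂ, (∀ ζ ∈ s, ζ.re = 0) →
      δ ^ s.card ≤ ‖(s.map (fun ζ => z - ζ)).prod‖ := by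
    intro s
    induction s using Multiset.induction_on with
    | empty => intro _; simp
    | cons a s ih =>
      intro hs
      rw [Multiset.map_cons, Multiset.prod_cons, Multiset.card_cons, norm_mul, pow_succ, mul_comm]
      apply mul_le_mul _ (ih (fun ζ hζ => hs ζ (Multiset.mem_cons_of_mem hζ))) (by positivity)
        (norm_nonneg _)
      have h := hs a (Multiset.mem_cons_self a s)
      have := Complex.abs_re_le_norm (z - a)
      rw [Complex.sub_re, h, sub_zero] at this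
      exact this
  have h1 : ∀ᶠ l' in 𝓝[>] l, δ ^ (2 * N + 1 - n) ≤ ‖(cx (P l' N n)).eval z‖ := by
    filter_upwards [generic_eventually N l, self_mem_nhdsWithin] with l' hgen hl'
    have hll : l < l' := hl'
    have hl2 : 1 / 2 ≤ l' := by linarith
    have hdeg := P_deg l' hl2 N n hn
    have hroots : ∀ ζ ∈ (cx (P l' N n)).roots, ζ.re = 0 := by
      rcases dichotomy l' hl2 N (by
        intro m hm
        apply hgen m
        unfold sg at hm
        have h2 : ((m + 1 : ℕ) : ℝ) < 2 * N + 2 := by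
          have h3 : (0:ℝ) ≤ ((m + 1 : ℕ) : ℝ) := Nat.cast_nonneg _
          nlinarith
        have h3 : ((m + 1 : ℕ) : ℝ) < ((2 * N + 2 : ℕ) : ℝ) := by push_cast at h2 ⊢; linarith
        have h4 : m + 1 < 2 * N + 2 := by exact_mod_cast h3
        omega) n hn with h | h
      · exfalso
        unfold sg at h
        have : (n : ℝ) * l < n * l' := mul_lt_mul_of_pos_left hll hn1
        linarith
      · exact h
    rw [← hdeg.1, (IsAlgClosed.splits (cx (P l' N n))).eval_eq_prod_roots, cx_leadingCoeff,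
      norm_mul, ← cx_card]
    have h5 : (1:ℝ) ≤ ‖(((P l' N n).leadingCoeff : ℝ) : ℂ)‖ := by
      rw [Complex.norm_real, Real.norm_eq_abs]
      exact hdeg.2.trans (le_abs_self _)
    calc δ ^ (cx (P l' N n)).roots.card = 1 * δ ^ (cx (P l' N n)).roots.card := by ring
      _ ≤ _ := mul_le_mul h5 (key _ hroots) (by positivity) (by positivity)
  have h2 : Tendsto (fun l' : ℝ => ‖(cx (P l' N n)).eval z‖) (𝓝[>] l)
      (𝓝 ‖(cx (P l N n)).eval z‖) := by
    have h3 : Continuous (fun l' : ℝ => ‖(cx (P l' N n)).eval z‖) :=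
      ((cont_joint N n).comp (f := fun l' : ℝ => (l', z)) (by fun_prop)).norm
    exact (h3.tendsto l).mono_left nhdsWithin_le_nhds
  have h4 := ge_of_tendsto h2 h1
  rw [hz, norm_zero] at h4
  have : 0 < δ ^ (2 * N + 1 - n) := by positivity
  linarith

/-- for `0 < l < 1/2` the zeros are real, simple, with gaps larger than `2 l` -/
theorem small_gaps (l : ℝ) (hl0 : 0 < l) (hl : l < 1 / 2) (N n : ℕ) (hn : n ≤ 2 * N + 1) :
    (cx (P l N n)).roots.Nodup ∧
    ∀ z w : ℂ, (cx (P l N n)).eval z = 0 → (cx (P l N n)).eval w = 0 → z ≠ w →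
      2 * l < ‖z - w‖ := by
  obtain ⟨c, a, hc, ha, h⟩ := mesh_P l hl0 hl N n hn
  have hcx : cx (P l N n) =
      C (c : ℂ) * ∏ i ∈ Finset.range (2 * N + 1 - n), (X - C ((a i : ℝ) : ℂ)) := by
    rw [h]
    unfold cx
    rw [Polynomial.map_mul, Polynomial.map_prod]
    simp
  have hc' : (c : ℂ) ≠ 0 := by exact_mod_cast hc
  have hmono : ∀ i j, i < j → j < 2 * N + 1 - n → a i + 2 * l < a j := by
    intro i j hij hj
    have h1 := ha i (by omega)
    rcases Nat.lt_or_ge (i + 1) j with h2 | h2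
    · have := mesh_mono hl0.le ha h2 hj
      linarith
    · have : j = i + 1 := by omega
      subst this
      exact h1
  constructor
  · have e : ∏ i ∈ Finset.range (2 * N + 1 - n), (X - C ((a i : ℝ) : ℂ)) =
        (((Finset.range (2 * N + 1 - n)).val.map fun i => ((a i : ℝ) : ℂ)).map
          fun x => X - C x).prod := by
      rw [Multiset.map_map]
      rfl
    rw [hcx, roots_C_mul _ hc', e, roots_multiset_prod_X_sub_C]
    refine Multiset.Nodup.map_on ?_ (Finset.range _).nodup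
    intro i hi j hj hij
    have hi' : i < 2 * N + 1 - n := Finset.mem_range.1 hi
    have hj' : j < 2 * N + 1 - n := Finset.mem_range.1 hj
    have hij' : a i = a j := by exact_mod_cast hij
    by_contra hne
    rcases lt_or_gt_of_ne hne with h1 | h1
    · have := hmono i j h1 hj'
      linarith
    · have := hmono j i h1 hi'
      linarith
  · intro z w hz hw hzw
    have hroot : ∀ z : ℂ, (cx (P l N n)).eval z = 0 → ∃ i < 2 * N + 1 - n, z = (a i : ℂ) := by
      intro z hz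
      rw [hcx, eval_mul, eval_C, eval_prod, mul_eq_zero, Finset.prod_eq_zero_iff] at hz
      rcases hz with hz | ⟨i, hi, hz⟩
      · exact absurd hz hc'
      · refine ⟨i, Finset.mem_range.1 hi, ?_⟩
        rw [eval_sub, eval_X, eval_C, sub_eq_zero] at hz
        exact hz
    obtain ⟨i, hi, rfl⟩ := hroot z hz
    obtain ⟨j, hj, rfl⟩ := hroot w hw
    have hij : i ≠ j := fun h => hzw (by rw [h])
    rw [← ofReal_sub, Complex.norm_real, Real.norm_eq_abs]
    rcases lt_or_gt_of_ne hij with h1 | h1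
    · have := hmono i j h1 hj
      rw [lt_abs]; right; linarith
    · have := hmono j i h1 hi
      rw [lt_abs]; left; linarith

/-- everything for `l > 0` -/
theorem main_pos (N : ℕ) (l : ℝ) (hl : 0 < l) (n : ℕ) (hn : n ≤ 2 * N + 1) :
    (cdd l)^[n] (pPoly N) ≠ 0 ∧ ((cdd l)^[n] (pPoly N)).natDegree = 2 * N + 1 - n ∧
    (∀ z : ℂ, ((cdd l)^[n] (pPoly N)).IsRoot z → z.im ≠ 0 → z.re = 0) ∧
    ((N : ℝ) + 1 ≤ n * l → ∀ z : ℂ, ((cdd l)^[n] (pPoly N)).IsRoot z → z.re = 0) ∧
    (l < 1 / 2 → ∀ z : ℂ, ((cdd l)^[n] (pPoly N)).IsRoot z → z.im = 0) ∧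
    (l < 1 / 2 → ((cdd l)^[n] (pPoly N)).roots.Nodup ∧
      ∀ z w : ℂ, ((cdd l)^[n] (pPoly N)).IsRoot z → ((cdd l)^[n] (pPoly N)).IsRoot w →
        z ≠ w → 2 * l < ‖z - w‖) := by
  have hc : ((1 / (2 * (l : ℂ))) ^ n) ≠ 0 := by
    have : (l : ℂ) ≠ 0 := by exact_mod_cast hl.ne'
    exact pow_ne_zero _ (by simp [this])
  obtain ⟨h1, h2⟩ := P_deg' l hl.ne' N n hn
  have hP : P l N n ≠ 0 := by intro h; rw [h] at h2; simp at h2
  have hroot : ∀ z : ℂ, ((cdd l)^[n] (pPoly N)).IsRoot z ↔ (cx (P l N n)).eval z = 0 := by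
    intro z
    rw [cdd_iter l hl.ne', IsRoot.def, eval_mul, eval_C, mul_eq_zero]
    exact ⟨fun h => h.resolve_left hc, Or.inr⟩
  have h3 : (cdd l)^[n] (pPoly N) ≠ 0 := by
    rw [cdd_iter l hl.ne']
    exact mul_ne_zero (C_ne_zero.2 hc) (cx_ne_zero hP)
  refine ⟨h3, ?_, ?_, ?_, ?_, ?_⟩
  · rw [cdd_iter l hl.ne', natDegree_C_mul hc, cx_natDegree, h1]
  · intro z hz him
    rw [hroot] at hz
    rcases le_or_gt (1 / 2) l with h | h
    · exact (cross_all l h N n hn z hz).resolve_right him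
    · exact absurd (cross_small l hl h N n hn z hz) him
  · intro hnl z hz
    rw [hroot] at hz
    refine imag_all l ?_ N n hn hnl z hz
    by_contra h
    push Not at h
    have h4 : (n : ℝ) ≤ 2 * N + 1 := by exact_mod_cast hn
    have h5 : (0 : ℝ) ≤ n := Nat.cast_nonneg n
    nlinarith
  · intro h z hz
    rw [hroot] at hz
    exact cross_small l hl h N n hn z hz
  · intro h
    obtain ⟨h4, h5⟩ := small_gaps l hl h N n hn
    refine ⟨?_, fun z w hz hw => ?_⟩
    · rw [cdd_iter l hl.ne', roots_C_mul _ hc]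
      exact h4
    · exact h5 z w ((hroot z).1 hz) ((hroot w).1 hw)

theorem cdd_zero_iter (N n : ℕ) :
    (cdd 0)^[n] (pPoly N) = derivative^[n] (cx (pN N)) := by
  have : cdd 0 = (derivative : ℂ[X] → ℂ[X]) := by
    funext p
    simp [cdd]
  rw [this, pPoly_eq]

theorem main_all (N : ℕ) (l : ℝ) (n : ℕ) (hn : n ≤ 2 * N + 1) :
    (cdd l)^[n] (pPoly N) ≠ 0 ∧ ((cdd l)^[n] (pPoly N)).natDegree = 2 * N + 1 - n ∧
    (∀ z : ℂ, ((cdd l)^[n] (pPoly N)).IsRoot z → z.im ≠ 0 → z.re = 0) ∧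
    ((N : ℝ) + 1 ≤ n * |l| → ∀ z : ℂ, ((cdd l)^[n] (pPoly N)).IsRoot z → z.re = 0) ∧
    (|l| < 1 / 2 → ∀ z : ℂ, ((cdd l)^[n] (pPoly N)).IsRoot z → z.im = 0) ∧
    (l ≠ 0 → |l| < 1 / 2 → ((cdd l)^[n] (pPoly N)).roots.Nodup ∧
      ∀ z w : ℂ, ((cdd l)^[n] (pPoly N)).IsRoot z → ((cdd l)^[n] (pPoly N)).IsRoot w →
        z ≠ w → 2 * |l| < ‖z - w‖) := by
  rcases lt_trichotomy l 0 with h | h | h
  · obtain ⟨h1, h2, h3, h4, h5, h6⟩ := main_pos N (-l) (by linarith) n hn
    rw [cdd_neg] at h1 h2 h3 h4 h5 h6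
    rw [abs_of_neg h]
    exact ⟨h1, h2, h3, h4, h5, fun _ => h6⟩
  · subst h
    obtain ⟨h1, h2, h3⟩ := deriv_real N n hn
    rw [cdd_zero_iter]
    refine ⟨h1, h2, fun z hz him => absurd (h3 z hz) him, ?_, fun _ => h3,
      fun h => absurd rfl h⟩
    intro h z _
    exfalso
    rw [abs_zero, mul_zero] at h
    have : (0 : ℝ) ≤ N := Nat.cast_nonneg N
    linarith
  · obtain ⟨h1, h2, h3, h4, h5, h6⟩ := main_pos N l h n hn
    rw [abs_of_pos h]
    exact ⟨h1, h2, h3, h4, h5, fun _ => h6⟩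

end Pool.Agent.P49a735Own
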