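import Pool.Agent.Lib.P49a735.Key

set_option autoImplicit false

namespace Pool.Agent.P49a735

open Polynomial Complex ComplexConjugate Filter Topology Bornology Set

/-- unnormalised central difference -/
noncomputable def dl (l : ℝ) (f : ℝ[X]) : ℝ[X] := f.comp (X + C l) - f.comp (X - C l)

noncomputable def pN : ℕ → ℝ[X]
  | 0 => X
  | N + 1 => (X - C ((N + 1 : ℕ) : ℝ)) * (X + C ((N + 1 : ℕ) : ℝ)) * pN N

noncomputable def P (l : ℝ) (N n : ℕ) : ℝ[X] := (dl l)^[n] (pN N)

theorem P_zero (l : ℝ) (N : ℕ) : P l N 0 = pN N := rfl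

theorem P_succ (l : ℝ) (N n : ℕ) : P l N (n + 1) = dl l (P l N n) := by
  unfold P
  rw [Function.iterate_succ_apply']

theorem eval_dl (l : ℝ) (f : ℝ[X]) (x : ℝ) : (dl l f).eval x = f.eval (x + l) - f.eval (x - l) := by
  unfold dl; simp

theorem pN_eval_int (N : ℕ) (k : ℤ) (h1 : -(N : ℤ) ≤ k) (h2 : k ≤ N) : (pN N).eval (k : ℝ) = 0 := by
  induction N with
  | zero =>
    have : k = 0 := by push_cast at h1 h2; omega
    subst this
    simp [pN]
  | succ N ih =>
    simp only [pN, eval_mul, eval_sub, eval_add, eval_X, eval_C]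
    by_cases h3 : k = ((N + 1 : ℕ) : ℤ)
    · subst h3; push_cast; ring
    · by_cases h4 : k = -((N + 1 : ℕ) : ℤ)
      · subst h4; push_cast; ring
      · rw [ih (by push_cast at h1 h4 ⊢; omega) (by push_cast at h2 h3 ⊢; omega)]
        ring

theorem sin_gamma (N : ℕ) (x : ℝ) (hx1 : -(N + 1 : ℝ) < x) (hx2 : x < N + 1) :
    Real.sin (Real.pi * x) * (Real.Gamma (N + 1 + x) * Real.Gamma (N + 1 - x)) =
      Real.pi * (-1) ^ N * (pN N).eval x := by
  by_cases hs : Real.sin (Real.pi * x) = 0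
  · rw [hs, zero_mul]
    rw [Real.sin_eq_zero_iff] at hs
    obtain ⟨k, hk⟩ := hs
    have hk' : x = k := by
      have := Real.pi_ne_zero
      have h : Real.pi * k = Real.pi * x := by rw [← hk]; ring
      exact (mul_left_cancel₀ this h).symm
    subst hk'
    rw [pN_eval_int N k, mul_zero]
    · have : (-(N + 1 : ℤ) : ℤ) < k := by
        have h : ((-(N + 1 : ℤ) : ℤ) : ℝ) < (k : ℝ) := by push_cast; linarith
        exact_mod_cast h
      omega
    · have : k < (N : ℤ) + 1 := by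
        have h : ((k : ℤ) : ℝ) < (((N : ℤ) + 1 : ℤ) : ℝ) := by push_cast; linarith
        exact_mod_cast h
      omega
  · clear hx1 hx2
    induction N with
    | zero =>
      have hx0 : x ≠ 0 := by rintro rfl; simp at hs
      have h1 := Real.Gamma_mul_Gamma_one_sub x
      simp only [pN, eval_X, Nat.cast_zero, zero_add, pow_zero, mul_one]
      rw [show (1:ℝ) + x = x + 1 by ring, Real.Gamma_add_one hx0]
      have h2 : Real.sin (Real.pi * x) * (x * Real.Gamma x * Real.Gamma (1 - x)) =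
        x * (Real.sin (Real.pi * x) * (Real.Gamma x * Real.Gamma (1 - x))) := by ring
      rw [h2, h1, mul_div_cancel₀ _ hs]
      ring
    | succ N ih =>
      have hne1 : (N : ℝ) + 1 + x ≠ 0 := by
        intro h
        apply hs
        have : x = -((N + 1 : ℕ) : ℤ) := by push_cast; linarith
        rw [Real.sin_eq_zero_iff]
        exact ⟨-((N + 1 : ℕ) : ℤ), by rw [this]; push_cast; ring⟩
      have hne2 : (N : ℝ) + 1 - x ≠ 0 := by
        intro h
        apply hs
        have : x = ((N + 1 : ℕ) : ℤ) := by push_cast; linarith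
        rw [Real.sin_eq_zero_iff]
        exact ⟨((N + 1 : ℕ) : ℤ), by rw [this]; push_cast; ring⟩
      have e1 : (((N + 1 : ℕ) : ℝ) + 1 + x) = (N + 1 + x) + 1 := by push_cast; ring
      have e2 : (((N + 1 : ℕ) : ℝ) + 1 - x) = (N + 1 - x) + 1 := by push_cast; ring
      rw [e1, e2, Real.Gamma_add_one hne1, Real.Gamma_add_one hne2]
      simp only [pN, eval_mul, eval_sub, eval_add, eval_X, eval_C]
      have : Real.sin (Real.pi * x) * ((↑N + 1 + x) * Real.Gamma (↑N + 1 + x) *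
        ((↑N + 1 - x) * Real.Gamma (↑N + 1 - x))) = (↑N + 1 + x) * (↑N + 1 - x) *
        (Real.sin (Real.pi * x) * (Real.Gamma (↑N + 1 + x) * Real.Gamma (↑N + 1 - x))) := by ring
      rw [this, ih]
      push_cast
      ring

section
variable (l : ℝ) (N : ℕ)

noncomputable def sg (n : ℕ) : ℝ := N + 1 - n * l

noncomputable def wl : ℂ := -exp (-(2 * Real.pi * l * I))

noncomputable def En (n : ℕ) (x : ℝ) : ℂ :=
  exp (Real.pi * (x + n * l) * I) * (Fp (2 * l) n (sg l N n + x) (sg l N n - x)).eval (wl l)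

noncomputable def Hn (n : ℕ) (x : ℝ) : ℂ :=
  exp (Real.pi * (x + n * l) * I) * (Hp (2 * l) n (sg l N n + x) (sg l N n - x)).eval (wl l)

theorem sg_succ (n : ℕ) : sg l N (n + 1) = sg l N n - l := by
  unfold sg; push_cast; ring

theorem norm_wl : ‖wl l‖ = 1 := by
  unfold wl
  rw [norm_neg]
  have : -(2 * Real.pi * l * I : ℂ) = ((-(2 * Real.pi * l) : ℝ) : ℂ) * I := by push_cast; ring
  rw [this, Complex.norm_exp_ofReal_mul_I]

theorem En_succ (n : ℕ) (x : ℝ) : En l N (n + 1) x = En l N n (x + l) - En l N n (x - l) := by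
  unfold En
  simp only [Fp, eval_add, eval_mul, eval_X, sg_succ]
  have e1 : ((sg l N n - l : ℝ) : ℂ) + x + ((2 * l : ℝ) : ℂ) = (sg l N n : ℂ) + ((x + l : ℝ) : ℂ) := by
    push_cast; ring
  have e2 : ((sg l N n - l : ℝ) : ℂ) - x = (sg l N n : ℂ) - ((x + l : ℝ) : ℂ) := by
    push_cast; ring
  have e3 : ((sg l N n - l : ℝ) : ℂ) + x = (sg l N n : ℂ) + ((x - l : ℝ) : ℂ) := by
    push_cast; ring
  have e4 : (sg l N n : ℂ) - ((x + l : ℝ) : ℂ) + ((2 * l : ℝ) : ℂ) =
    (sg l N n : ℂ) - ((x - l : ℝ) : ℂ) := by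
    push_cast; ring
  rw [e1, e2, e3, e4, mul_add]
  have e5 : (Real.pi * (x + ((n + 1 : ℕ) : ℂ) * l) * I : ℂ) = Real.pi * (((x + l : ℝ) : ℂ) + n * l) * I := by
    push_cast; ring
  rw [e5]
  unfold wl
  have e6 : exp (Real.pi * (((x - l : ℝ) : ℂ) + n * l) * I) =
      exp (Real.pi * (((x + l : ℝ) : ℂ) + n * l) * I) * exp (-(2 * Real.pi * l * I)) := by
    rw [← Complex.exp_add]; congr 1; push_cast; ring
  rw [e6]
  ring

theorem Hn_succ (n : ℕ) (x : ℝ) : Hn l N (n + 1) x =
    Hn l N n (x + l) - (sg l N (n + 1) - x) * En l N n (x - l) := by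
  unfold Hn En
  simp only [Hp, eval_add, eval_mul, eval_X, eval_C, sg_succ]
  have e1 : ((sg l N n - l : ℝ) : ℂ) + x + ((2 * l : ℝ) : ℂ) = (sg l N n : ℂ) + ((x + l : ℝ) : ℂ) := by
    push_cast; ring
  have e2 : ((sg l N n - l : ℝ) : ℂ) - x = (sg l N n : ℂ) - ((x + l : ℝ) : ℂ) := by
    push_cast; ring
  have e3 : ((sg l N n - l : ℝ) : ℂ) + x = (sg l N n : ℂ) + ((x - l : ℝ) : ℂ) := by
    push_cast; ring
  have e4 : (sg l N n : ℂ) - ((x + l : ℝ) : ℂ) + ((2 * l : ℝ) : ℂ) =
    (sg l N n : ℂ) - ((x - l : ℝ) : ℂ) := by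
    push_cast; ring
  rw [e1, e2, e3, e4, mul_add]
  have e5 : (Real.pi * (x + ((n + 1 : ℕ) : ℂ) * l) * I : ℂ) = Real.pi * (((x + l : ℝ) : ℂ) + n * l) * I := by
    push_cast; ring
  rw [e5]
  unfold wl
  have e6 : exp (Real.pi * (((x - l : ℝ) : ℂ) + n * l) * I) =
      exp (Real.pi * (((x + l : ℝ) : ℂ) + n * l) * I) * exp (-(2 * Real.pi * l * I)) := by
    rw [← Complex.exp_add]; congr 1; push_cast; ring
  rw [e6]
  ring

theorem Hn_eq (n : ℕ) (x : ℝ) (hx : x ≠ sg l N n) : Hn l N n x = (sg l N n - x) * En l N n x := by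
  unfold Hn En
  have : (sg l N n : ℂ) - x ≠ 0 := by
    intro h
    apply hx
    have : (x : ℂ) = sg l N n := by linear_combination -h
    exact_mod_cast this
  rw [Hp_eq _ _ _ _ this, eval_mul, eval_C]
  ring

theorem im_En (hl : 0 ≤ l) (n : ℕ) (x : ℝ) (h1 : -sg l N n < x) (h2 : x < sg l N n) :
    (En l N n x).im = Real.pi * (-1) ^ N * (P l N n).eval x := by
  induction n generalizing x with
  | zero =>
    rw [P_zero, ← sin_gamma N x (by simpa [sg] using h1) (by simpa [sg] using h2)]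
    unfold En
    simp only [Fp, eval_C, sg, Nat.cast_zero, zero_mul, sub_zero, add_zero]
    have e1 : (((N : ℝ) + 1 : ℝ) : ℂ) + x = ((N + 1 + x : ℝ) : ℂ) := by push_cast; ring
    have e2 : (((N : ℝ) + 1 : ℝ) : ℂ) - x = ((N + 1 - x : ℝ) : ℂ) := by push_cast; ring
    rw [e1, e2, Complex.Gamma_ofReal, Complex.Gamma_ofReal, ← Complex.ofReal_mul, ← Complex.ofReal_mul,
      Complex.im_mul_ofReal, Complex.exp_ofReal_mul_I_im]
  | succ n ih =>
    rw [sg_succ] at h1 h2
    rw [En_succ, Complex.sub_im, ih (x + l) (by linarith) (by linarith),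
      ih (x - l) (by linarith) (by linarith), P_succ, eval_dl]
    ring

/-- the ratio -/
noncomputable def rho (n : ℕ) (x : ℝ) : ℂ :=
  (sg l N (n + 1) - x) * En l N n (x - l) / Hn l N n (x + l)

theorem key_rho (hl : 1 / 2 ≤ l) (n : ℕ) (x : ℝ) (hs : 0 < sg l N (n + 1)) (h1 : 0 < x)
    (h2 : x ≤ sg l N (n + 1)) :
    ‖(sg l N (n + 1) - x) * En l N n (x - l)‖ < ‖Hn l N n (x + l)‖ := by
  have hk := key (2 * l) (by linarith) n (2 * N + 1) (sg l N (n + 1) + x) (sg l N (n + 1) - x) (wl l)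
    (by unfold sg; push_cast; ring)
    (by unfold sg at hs; push_cast at hs ⊢; linarith)
    (by simp; linarith) (by simp; linarith) (norm_wl l)
  unfold En Hn
  have e0 : ∀ y : ℝ, ‖exp (Real.pi * (y + n * l) * I)‖ = 1 := by
    intro y
    have : (Real.pi * (y + n * l) * I : ℂ) = ((Real.pi * (y + n * l) : ℝ) : ℂ) * I := by push_cast; ring
    rw [this, Complex.norm_exp_ofReal_mul_I]
  rw [norm_mul, norm_mul, norm_mul, e0, e0, one_mul, one_mul, ← norm_mul]
  rw [sg_succ] at hk ⊢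
  have e1 : ((sg l N n - l : ℝ) : ℂ) + x + ((2 * l : ℝ) : ℂ) = (sg l N n : ℂ) + ((x + l : ℝ) : ℂ) := by
    push_cast; ring
  have e2 : ((sg l N n - l : ℝ) : ℂ) - x = (sg l N n : ℂ) - ((x + l : ℝ) : ℂ) := by
    push_cast; ring
  have e3 : ((sg l N n - l : ℝ) : ℂ) + x = (sg l N n : ℂ) + ((x - l : ℝ) : ℂ) := by
    push_cast; ring
  have e4 : (sg l N n : ℂ) - ((x + l : ℝ) : ℂ) + ((2 * l : ℝ) : ℂ) =
    (sg l N n : ℂ) - ((x - l : ℝ) : ℂ) := by
    push_cast; ring
  rw [e1, e2, e3, e4] at hk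
  rw [e2]
  exact hk

theorem norm_rho_lt (hl : 1 / 2 ≤ l) (n : ℕ) (x : ℝ) (hs : 0 < sg l N (n + 1)) (h1 : 0 < x)
    (h2 : x ≤ sg l N (n + 1)) : ‖rho l N n x‖ < 1 := by
  have := key_rho l N hl n x hs h1 h2
  unfold rho
  rw [norm_div, div_lt_one (lt_of_le_of_lt (norm_nonneg _) this)]
  exact this

theorem one_sub_rho_re (hl : 1 / 2 ≤ l) (n : ℕ) (x : ℝ) (hs : 0 < sg l N (n + 1)) (h1 : 0 < x)
    (h2 : x ≤ sg l N (n + 1)) : 0 < (1 - rho l N n x).re := by
  have := norm_rho_lt l N hl n x hs h1 h2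
  have h3 := Complex.re_le_norm (rho l N n x)
  simp; linarith

theorem cont_En (hl : 1 / 2 ≤ l) (n : ℕ) (x : ℝ) (h1 : -sg l N n < x) (h2 : x < sg l N n) :
    ContinuousAt (En l N n) x := by
  unfold En
  apply ContinuousAt.mul (by fun_prop)
  have h := Fp_diff (2 * l) (by linarith) n (wl l) (α := fun z : ℂ => sg l N n + z)
    (β := fun z : ℂ => sg l N n - z) (z := (x : ℂ)) (by fun_prop) (by fun_prop)
    (by simp; linarith) (by simp; linarith)
  exact h.continuousAt.comp (f := fun x : ℝ => (x : ℂ)) Complex.continuous_ofReal.continuousAt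

theorem cont_Hn (hl : 1 / 2 ≤ l) (n : ℕ) (x : ℝ) (h1 : -sg l N n < x) (h2 : x < sg l N n + 1) :
    ContinuousAt (Hn l N n) x := by
  unfold Hn
  apply ContinuousAt.mul (by fun_prop)
  have h := Hp_diff (2 * l) (by linarith) n (wl l) (α := fun z : ℂ => sg l N n + z)
    (β := fun z : ℂ => sg l N n - z) (z := (x : ℂ)) (by fun_prop) (by fun_prop)
    (by simp; linarith) (by simp; linarith)
  exact h.continuousAt.comp (f := fun x : ℝ => (x : ℂ)) Complex.continuous_ofReal.continuousAt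

theorem cont_rho (hl : 1 / 2 ≤ l) (n : ℕ) (x : ℝ) (hs : 0 < sg l N (n + 1)) (h1 : 0 < x)
    (h2 : x ≤ sg l N (n + 1)) : ContinuousAt (rho l N n) x := by
  have hk := key_rho l N hl n x hs h1 h2
  unfold rho
  have hss := sg_succ l N n
  refine ContinuousAt.div (ContinuousAt.mul (by fun_prop) ?_) ?_ ?_
  · exact (cont_En l N hl n (x - l) (by linarith) (by linarith)).comp
      (f := fun x : ℝ => x - l) (by fun_prop)
  · exact (cont_Hn l N hl n (x + l) (by linarith) (by linarith)).comp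
      (f := fun x : ℝ => x + l) (by fun_prop)
  · intro h
    rw [h, norm_zero] at hk
    exact absurd hk (not_lt.2 (norm_nonneg _))

/-- the phase -/
noncomputable def ph : ℕ → ℝ → ℝ
  | 0, x => Real.pi * x
  | n + 1, x => ph n (x + l) + (1 - rho l N n x).arg

theorem ph_cont (hl : 1 / 2 ≤ l) (n : ℕ) (x : ℝ) (hs : 0 < sg l N n) (h1 : 0 < x)
    (h2 : x ≤ sg l N n) : ContinuousAt (ph l N n) x := by
  induction n generalizing x with
  | zero =>
    have : ph l N 0 = fun x => Real.pi * x := by funext x; rfl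
    rw [this]; fun_prop
  | succ n ih =>
    have : ph l N (n + 1) = fun x => ph l N n (x + l) + (1 - rho l N n x).arg := by funext x; rfl
    rw [this]
    have hss := sg_succ l N n
    refine ContinuousAt.add ?_ ?_
    · exact (ih (x + l) (by linarith) (by linarith) (by linarith)).comp
        (f := fun x : ℝ => x + l) (by fun_prop)
    · refine (Complex.continuousAt_arg ?_).comp (f := fun x => 1 - rho l N n x) ?_
      · exact Or.inl (one_sub_rho_re l N hl n x hs h1 h2)
      · exact (cont_rho l N hl n x hs h1 h2).const_sub 1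

theorem Hn_polar (hl : 1 / 2 ≤ l) (n : ℕ) (x : ℝ) (hs : 0 < sg l N n) (h1 : 0 < x)
    (h2 : x ≤ sg l N n) : ∃ r : ℝ, 0 < r ∧ Hn l N n x = r * exp (ph l N n x * I) := by
  induction n generalizing x with
  | zero =>
    refine ⟨Real.Gamma (N + 1 + x) * Real.Gamma (N + 1 - x + 1), ?_, ?_⟩
    · have h3 : x ≤ N + 1 := by simpa [sg] using h2
      have : (0:ℝ) ≤ N := Nat.cast_nonneg N
      exact mul_pos (Real.Gamma_pos_of_pos (by linarith)) (Real.Gamma_pos_of_pos (by linarith))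
    · unfold Hn ph
      simp only [Hp, eval_C, sg, Nat.cast_zero, zero_mul, sub_zero, add_zero]
      have e1 : (((N : ℝ) + 1 : ℝ) : ℂ) + x = ((N + 1 + x : ℝ) : ℂ) := by push_cast; ring
      have e2 : (((N : ℝ) + 1 : ℝ) : ℂ) - x + 1 = ((N + 1 - x + 1 : ℝ) : ℂ) := by push_cast; ring
      rw [e1, e2, Complex.Gamma_ofReal, Complex.Gamma_ofReal]
      push_cast
      ring
  | succ n ih =>
    have hss := sg_succ l N n
    obtain ⟨r, hr, hH⟩ := ih (x + l) (by linarith) (by linarith) (by linarith)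
    have hre := one_sub_rho_re l N hl n x hs h1 h2
    have hne : (1 - rho l N n x) ≠ 0 := by intro h; rw [h] at hre; simp at hre
    refine ⟨r * ‖1 - rho l N n x‖, mul_pos hr (norm_pos_iff.2 hne), ?_⟩
    have hHne : Hn l N n (x + l) ≠ 0 := by
      rw [hH]
      exact mul_ne_zero (by exact_mod_cast hr.ne') (Complex.exp_ne_zero _)
    have e1 : Hn l N (n + 1) x = Hn l N n (x + l) * (1 - rho l N n x) := by
      rw [Hn_succ]
      unfold rho
      field_simp
    have e2 : (1 - rho l N n x) = ‖1 - rho l N n x‖ * exp ((1 - rho l N n x).arg * I) :=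
      (Complex.norm_mul_exp_arg_mul_I _).symm
    rw [e1, hH]
    conv_lhs => rw [e2]
    have e3 : ph l N (n + 1) x = ph l N n (x + l) + (1 - rho l N n x).arg := rfl
    rw [e3]
    push_cast
    rw [add_mul, Complex.exp_add]
    ring

theorem ph_sg (n : ℕ) : ph l N n (sg l N n) = Real.pi * (N + 1) := by
  induction n with
  | zero => simp [ph, sg]
  | succ n ih =>
    have e3 : ph l N (n + 1) (sg l N (n + 1)) =
      ph l N n (sg l N (n + 1) + l) + (1 - rho l N n (sg l N (n + 1))).arg := rfl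
    rw [e3]
    have e4 : rho l N n (sg l N (n + 1)) = 0 := by unfold rho; simp
    rw [e4, sg_succ, sub_add_cancel, ih]
    simp

noncomputable def phi (n : ℕ) (x : ℝ) : ℝ := N + 1 - ph l N n x / Real.pi

theorem phi_zero (x : ℝ) : phi l N 0 x = N + 1 - x := by
  unfold phi ph
  have := Real.pi_ne_zero
  field_simp

theorem phi_sg (n : ℕ) : phi l N n (sg l N n) = 0 := by
  unfold phi
  rw [ph_sg]
  have := Real.pi_ne_zero
  field_simp
  ring

theorem phi_cont (hl : 1 / 2 ≤ l) (n : ℕ) (x : ℝ) (hs : 0 < sg l N n) (h1 : 0 < x)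
    (h2 : x ≤ sg l N n) : ContinuousAt (phi l N n) x := by
  unfold phi
  exact ((ph_cont l N hl n x hs h1 h2).div_const _).const_sub _

theorem phi_step (hl : 1 / 2 ≤ l) (n : ℕ) (x : ℝ) (hs : 0 < sg l N (n + 1)) (h1 : 0 < x)
    (h2 : x ≤ sg l N (n + 1)) : |phi l N (n + 1) x - phi l N n (x + l)| < 1 / 2 := by
  unfold phi
  have e3 : ph l N (n + 1) x = ph l N n (x + l) + (1 - rho l N n x).arg := rfl
  have hre := one_sub_rho_re l N hl n x hs h1 h2
  have harg : |(1 - rho l N n x).arg| < Real.pi / 2 :=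
    Complex.abs_arg_lt_pi_div_two_iff.2 (Or.inl hre)
  have hpi := Real.pi_pos
  rw [e3]
  have : (N:ℝ) + 1 - (ph l N n (x + l) + (1 - rho l N n x).arg) / Real.pi -
    (N + 1 - ph l N n (x + l) / Real.pi) = -((1 - rho l N n x).arg / Real.pi) := by
    field_simp; ring
  rw [this, abs_neg, abs_div, abs_of_pos hpi, div_lt_iff₀ hpi]
  linarith

theorem phi_eval (hl : 1 / 2 ≤ l) (n : ℕ) (x : ℝ) (hs : 0 < sg l N n) (h1 : 0 < x)
    (h2 : x < sg l N n) : ∃ c : ℝ, 0 < c ∧ (P l N n).eval x = c * Real.sin (Real.pi * phi l N n x) := by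
  obtain ⟨r, hr, hH⟩ := Hn_polar l N hl n x hs h1 h2.le
  rw [Hn_eq l N n x h2.ne] at hH
  have him := congrArg Complex.im hH
  have e1 : ((sg l N n : ℂ) - x) = ((sg l N n - x : ℝ) : ℂ) := by push_cast; ring
  rw [e1, Complex.im_ofReal_mul, Complex.im_ofReal_mul, Complex.exp_ofReal_mul_I_im,
    im_En l N (by linarith) n x (by linarith) h2] at him
  have hsx : 0 < sg l N n - x := by linarith
  have hpi := Real.pi_pos
  refine ⟨r / (Real.pi * (sg l N n - x)), by positivity, ?_⟩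
  have e2 : Real.sin (Real.pi * phi l N n x) = (-1) ^ N * Real.sin (ph l N n x) := by
    have e3 : Real.pi * phi l N n x = (N + 1 : ℕ) * Real.pi - ph l N n x := by
      unfold phi; push_cast; field_simp
    rw [e3, Real.sin_nat_mul_pi_sub]
    rw [pow_succ]; ring
  rw [e2]
  have h3 : ((-1:ℝ) ^ N) * (-1) ^ N = 1 := by
    rw [← mul_pow]; simp
  have h4 : (P l N n).eval x * (Real.pi * (sg l N n - x)) =
      (-1) ^ N * (r * Real.sin (ph l N n x)) := by
    rw [← him]
    linear_combination -(P l N n).eval x * (Real.pi * (sg l N n - x)) * h3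
  have h5 : Real.pi * (sg l N n - x) ≠ 0 := by positivity
  field_simp
  linear_combination h4

end

end Pool.Agent.P49a735
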