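import Pool.Agent.Lib.P49a735.Arg
import Pool.Agent.Lib.P49a735.Phase

set_option autoImplicit false

namespace Pool.Agent.P49a735

open Polynomial Complex ComplexConjugate Filter Topology Set

theorem dl_par (l s : ℝ) (f : ℝ[X]) (h : f.comp (-X) = C s * f) :
    (dl l f).comp (-X) = C (-s) * dl l f := by
  unfold dl
  have e1 : (f.comp (X + C l)).comp (-X) = C s * f.comp (X - C l) := by
    rw [comp_assoc]
    have : (X + C l : ℝ[X]).comp (-X) = (-X : ℝ[X]).comp (X - C l) := by simp; ring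
    rw [this, ← comp_assoc, h]; simp
  have e2 : (f.comp (X - C l)).comp (-X) = C s * f.comp (X + C l) := by
    rw [comp_assoc]
    have : (X - C l : ℝ[X]).comp (-X) = (-X : ℝ[X]).comp (X + C l) := by simp; ring
    rw [this, ← comp_assoc, h]; simp
  rw [sub_comp, e1, e2, C_neg]
  ring

theorem dl_degree (l : ℝ) (hl : l ≠ 0) (f : ℝ[X]) (D : ℕ) (hD : f.natDegree = D + 1) :
    (dl l f).natDegree = D ∧ (dl l f).leadingCoeff = 2 * l * (D + 1) * f.leadingCoeff := by
  have hf : f ≠ 0 := by intro h; rw [h] at hD; simp at hD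
  have e1 : dl l f = taylor l f - taylor (-l) f := by
    unfold dl
    rw [taylor_apply, taylor_apply, C_neg, ← sub_eq_add_neg]
  have hc : ∀ r : ℝ, (taylor r f).coeff D = f.coeff D + (D + 1) * f.leadingCoeff * r := by
    intro r
    rw [taylor_coeff]
    have hn : (hasseDeriv D f).natDegree < 2 := by
      have := natDegree_hasseDeriv_le f D
      omega
    rw [eval_eq_sum_range' hn]
    simp only [Finset.sum_range_succ, Finset.sum_range_zero, hasseDeriv_coeff]
    have h1 : (1 + D).choose D = D + 1 := by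
      rw [Nat.choose_symm_add.symm, Nat.choose_one_right]; ring
    rw [h1]
    have h2 : f.coeff (1 + D) = f.leadingCoeff := by
      rw [leadingCoeff, hD, add_comm]
    rw [h2]
    simp
  have hcoef : (dl l f).coeff D = 2 * l * (D + 1) * f.leadingCoeff := by
    rw [e1, coeff_sub, hc, hc]; ring
  have hlc : f.leadingCoeff ≠ 0 := leadingCoeff_ne_zero.2 hf
  have hne : (dl l f).coeff D ≠ 0 := by
    rw [hcoef]
    have : (D:ℝ) + 1 ≠ 0 := by positivity
    exact mul_ne_zero (mul_ne_zero (mul_ne_zero two_ne_zero hl) this) hlc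
  have hlt : (dl l f).degree < (taylor l f).degree := by
    rw [e1]
    apply degree_sub_lt_left
    · rw [degree_taylor, degree_taylor]
    · intro h
      rw [taylor_eq_zero] at h
      exact hf h
    · rw [leadingCoeff_taylor, leadingCoeff_taylor]
  have hle : (dl l f).natDegree ≤ D := by
    rw [degree_taylor, degree_eq_natDegree hf, hD] at hlt
    have hg : dl l f ≠ 0 := by intro h; rw [h] at hne; simp at hne
    rw [degree_eq_natDegree hg] at hlt
    have : (dl l f).natDegree < D + 1 := by exact_mod_cast hlt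
    omega
  have hge : D ≤ (dl l f).natDegree := le_natDegree_of_ne_zero hne
  have heq : (dl l f).natDegree = D := le_antisymm hle hge
  exact ⟨heq, by rw [leadingCoeff, heq, hcoef]⟩

theorem eval_cx_dl (l : ℝ) (f : ℝ[X]) (z : ℂ) :
    (cx (dl l f)).eval z = (cx f).eval (z + l) - (cx f).eval (z - l) := by
  unfold cx dl
  rw [Polynomial.map_sub, Polynomial.map_comp, Polynomial.map_comp]
  simp

theorem cx_eval_neg (f : ℝ[X]) (s : ℝ) (h : f.comp (-X) = C s * f) (z : ℂ) :
    (cx f).eval (-z) = s * (cx f).eval z := by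
  have h2 := congrArg (fun p => (Polynomial.map (algebraMap ℝ ℂ) p).eval z) h
  simp only [Polynomial.map_comp] at h2
  simpa [cx] using h2

theorem imag_zeros (f : ℝ[X]) (hlc : 0 < f.leadingCoeff) (l : ℝ)
    (hpar : f.comp (-X) = C ((-1) ^ f.natDegree) * f)
    (hs : ∀ ζ ∈ (cx f).roots, ζ.re ≠ l) :
    ∃ S : Finset ℝ, f.natDegree ≤ S.card + 2 * Zc f l + 1 ∧
      ∀ y ∈ S, (cx (dl l f)).eval ((y : ℂ) * I) = 0 := by
  by_cases hD : f.natDegree ≤ 2 * Zc f l + 1
  · exact ⟨∅, by simpa using hD, by simp⟩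
  push Not at hD
  set D := f.natDegree with hDdef
  set q := Zc f l with hq
  have hpi := Real.pi_pos
  set φ : ℝ → ℝ := fun y => (D * (Real.pi / 2) - theta l (cx f).roots y) / Real.pi with hφ
  have htop : Tendsto φ atTop (𝓝 0) := by
    have h1 := theta_top l (cx f).roots hs
    rw [cx_card] at h1
    have h2 := (h1.const_sub (D * (Real.pi / 2))).div_const Real.pi
    rw [← hDdef] at h2
    simpa using h2
  have hbot : Tendsto φ atBot (𝓝 (D - 2 * q)) := by
    have h1 := theta_bot l (cx f).roots hs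
    rw [cx_card] at h1
    have h2 := (h1.const_sub (D * (Real.pi / 2))).div_const Real.pi
    rw [← hDdef] at h2
    refine h2.trans_eq ?_
    congr 1
    have : ((cx f).roots.countP (fun ζ => l < ζ.re) : ℝ) = q := by rw [hq]; rfl
    rw [this]
    field_simp
    ring
  have e1 := htop.eventually (gt_mem_nhds (show (0:ℝ) < 1 by norm_num))
  have e2 := hbot.eventually (lt_mem_nhds (show (D:ℝ) - 2 * q - 1 < D - 2 * q by linarith))
  obtain ⟨v0, hv0⟩ := eventually_atTop.1 e1
  obtain ⟨u0, hu0⟩ := eventually_atBot.1 e2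
  obtain ⟨v, hv1, hv2⟩ : ∃ v, v0 ≤ v ∧ 0 < v := ⟨max v0 1, le_max_left _ _, by positivity⟩
  obtain ⟨u, hu1, hu2⟩ : ∃ u, u ≤ u0 ∧ u < 0 :=
    ⟨min u0 (-1), min_le_left _ _, lt_of_le_of_lt (min_le_right _ _) (by norm_num)⟩
  have hφv := hv0 v hv1
  have hφu := hu0 u hu1
  have hcont : Continuous φ := (continuous_const.sub (theta_cont l _)).div_const _
  obtain ⟨S, hScard, hS⟩ := ivt_count φ u v (by linarith) hcont.continuousOn
    (Finset.Icc (1:ℤ) (D - 2 * q - 1)) (by
      intro t ht
      rw [Finset.mem_Icc] at ht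
      constructor
      · have : (1:ℝ) ≤ t := by exact_mod_cast ht.1
        linarith
      · have : (t:ℝ) ≤ D - 2 * q - 1 := by
          have := ht.2
          have h3 : ((t:ℤ):ℝ) ≤ (((D:ℤ) - 2 * q - 1 : ℤ) : ℝ) := by exact_mod_cast this
          push_cast at h3; exact h3
        linarith)
  refine ⟨S, ?_, ?_⟩
  · rw [hScard, Int.card_Icc]; omega
  · intro y hy
    obtain ⟨_, _, t, ht⟩ := hS y hy
    obtain ⟨r, hr, hpol⟩ := cx_polar f hlc l hs y
    have hΘ : theta l (cx f).roots y = D * (Real.pi / 2) - t * Real.pi := by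
      rw [hφ] at ht
      simp only at ht
      rw [div_eq_iff hpi.ne'] at ht
      linarith
    rw [eval_cx_dl]
    have e3 : (y : ℂ) * I - l = -(conj ((l : ℂ) + y * I)) := by
      simp; ring
    rw [e3, cx_eval_neg f _ hpar, cx_eval_conj, add_comm ((y:ℂ) * I), hpol, hΘ]
    rw [map_mul, Complex.conj_ofReal, ← Complex.exp_conj]
    have e4 : (conj ((((D * (Real.pi / 2) - t * Real.pi : ℝ)) : ℂ) * I)) =
      ((((D * (Real.pi / 2) - t * Real.pi : ℝ)) : ℂ) * I) + (t : ℤ) * (2 * Real.pi * I) +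
        (D : ℕ) * (-(Real.pi * I)) := by
      rw [map_mul, Complex.conj_ofReal, Complex.conj_I]
      push_cast; ring
    rw [e4, Complex.exp_add, Complex.exp_add, Complex.exp_int_mul_two_pi_mul_I, Complex.exp_nat_mul,
      Complex.exp_neg, Complex.exp_pi_mul_I]
    push_cast
    have e5 : ((-1 : ℂ) ^ D) * ((-1)⁻¹) ^ D = 1 := by
      rw [← mul_pow]; simp
    linear_combination -(r : ℂ) * exp ((D * (Real.pi / 2) - t * Real.pi) * I) * e5

theorem countP_tri (s : Multiset ℂ) : s.card = s.countP (fun ζ => 0 < ζ.re) +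
    s.countP (fun ζ => ζ.re < 0) + s.countP (fun ζ => ζ.re = 0) := by
  induction s using Multiset.induction_on with
  | empty => simp
  | cons a s ih =>
    rw [Multiset.card_cons, ih, Multiset.countP_cons, Multiset.countP_cons, Multiset.countP_cons]
    rcases lt_trichotomy a.re 0 with h | h | h
    · simp [h, h.ne, h.not_gt]; omega
    · simp [h]; omega
    · simp [h, h.ne', h.not_gt]; omega

theorem countP_disj (s : Multiset ℂ) (p q r : ℂ → Prop) [DecidablePred p] [DecidablePred q]
    [DecidablePred r] (hpq : ∀ x, p x → ¬ q x) (hpr : ∀ x, p x → r x) (hqr : ∀ x, q x → r x) :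
    s.countP p + s.countP q ≤ s.countP r := by
  induction s using Multiset.induction_on with
  | empty => simp
  | cons a s ih =>
    rw [Multiset.countP_cons, Multiset.countP_cons, Multiset.countP_cons]
    by_cases hp : p a
    · simp [hp, hpq a hp, hpr a hp]; omega
    · by_cases hq : q a
      · simp [hp, hq, hqr a hq]; omega
      · simp only [hp, hq, if_false]; omega

theorem countP_finset (s : Multiset ℂ) (p : ℂ → Prop) [DecidablePred p] (S : Finset ℂ)
    (hS : ∀ x ∈ S, x ∈ s ∧ p x) : S.card ≤ s.countP p := by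
  rw [Multiset.countP_eq_card_filter]
  apply Multiset.card_le_card
  rw [Multiset.le_iff_subset S.nodup]
  intro x hx
  rw [Multiset.mem_filter]
  exact hS x hx

theorem mem_cx_roots {g : ℝ[X]} (hg : g ≠ 0) {z : ℂ} : z ∈ (cx g).roots ↔ (cx g).eval z = 0 := by
  rw [mem_roots (cx_ne_zero hg)]; rfl

theorem sym_count (g : ℝ[X]) (hg : g ≠ 0) (hneg : (cx g).roots.map (fun x => -x) = (cx g).roots)
    (S : Finset ℝ) (hS : ∀ y ∈ S, (cx g).eval ((y : ℂ) * I) = 0) :
    2 * Zc g 0 + S.card ≤ g.natDegree := by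
  rw [← cx_card, countP_tri]
  have h1 : (cx g).roots.countP (fun ζ => ζ.re < 0) = Zc g 0 := by
    conv_lhs => rw [← hneg]
    rw [Multiset.countP_map, ← Multiset.countP_eq_card_filter]
    unfold Zc
    congr 1
    funext ζ
    simp
  have h2 : S.card ≤ (cx g).roots.countP (fun ζ => ζ.re = 0) := by
    have : (S.image (fun y : ℝ => (y : ℂ) * I)).card = S.card := by
      apply Finset.card_image_of_injective
      intro a b hab
      have hab' : (a : ℂ) * I = (b : ℂ) * I := hab
      have := mul_right_cancel₀ I_ne_zero hab'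
      exact_mod_cast this
    rw [← this]
    apply countP_finset
    intro x hx
    rw [Finset.mem_image] at hx
    obtain ⟨y, hy, rfl⟩ := hx
    exact ⟨(mem_cx_roots hg).2 (hS y hy), by simp⟩
  rw [h1]
  have h3 : (cx g).roots.countP (fun ζ => 0 < ζ.re) = Zc g 0 := rfl
  rw [h3]
  omega

theorem Zc_anti (g : ℝ[X]) {y y' : ℝ} (h : y' ≤ y) : Zc g y ≤ Zc g y' := by
  unfold Zc
  have := countP_disj (cx g).roots (fun ζ => y < ζ.re) (fun _ => False) (fun ζ => y' < ζ.re)
    (by simp) (fun x hx => lt_of_le_of_lt h hx) (by simp)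
  omega

theorem Zc_add (g : ℝ[X]) (hg : g ≠ 0) {y y' : ℝ} (h : y' ≤ y) (S : Finset ℝ)
    (hS : ∀ x ∈ S, y' < x ∧ x < y ∧ g.eval x = 0) : Zc g y + S.card ≤ Zc g y' := by
  unfold Zc
  have h1 := countP_disj (cx g).roots (fun ζ => y < ζ.re) (fun ζ => y' < ζ.re ∧ ζ.re < y)
    (fun ζ => y' < ζ.re) (fun x hx hx' => absurd hx (not_lt.2 hx'.2.le))
    (fun x hx => lt_of_le_of_lt h hx) (fun x hx => hx.1)
  have h2 : S.card ≤ (cx g).roots.countP (fun ζ => y' < ζ.re ∧ ζ.re < y) := by
    have : (S.image (fun y : ℝ => (y : ℂ))).card = S.card :=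
      Finset.card_image_of_injective _ Complex.ofReal_injective
    rw [← this]
    apply countP_finset
    intro x hx
    rw [Finset.mem_image] at hx
    obtain ⟨y, hy, rfl⟩ := hx
    obtain ⟨a1, a2, a3⟩ := hS y hy
    refine ⟨(mem_cx_roots hg).2 ?_, by simpa using a1, by simpa using a2⟩
    rw [cx_eval_real, a3]; simp
  omega

theorem package (g : ℝ[X]) (hlc : 0 < g.leadingCoeff)
    (hneg : (cx g).roots.map (fun x => -x) = (cx g).roots) (σ : ℝ) (hσ : 0 < σ) (φ : ℝ → ℝ)
    (hφc : ∀ x, 0 < x → x ≤ σ → ContinuousAt φ x) (hφσ : φ σ = 0)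
    (hφe : ∀ x, 0 < x → x < σ → ∃ c : ℝ, 0 < c ∧ g.eval x = c * Real.sin (Real.pi * φ x))
    (q : ℕ) (hq : Zc g 0 ≤ q) (hnear : ∀ᶠ y in 𝓝[>] (0:ℝ), (q : ℝ) - 1 / 2 < φ y) :
    (∀ ζ : ℂ, (cx g).eval ζ = 0 → ζ.re = 0 ∨ ζ.im = 0) ∧
    (∀ y, 0 < y → y < σ → g.eval y ≠ 0 → (Zc g y : ℤ) = ⌊φ y⌋) := by
  have hg : g ≠ 0 := by intro h; rw [h] at hlc; simp at hlc
  have hroot : ∀ x, 0 < x → x < σ → (∃ t : ℤ, φ x = t) → g.eval x = 0 := by
    rintro x h1 h2 ⟨t, ht⟩
    obtain ⟨c, _, hc⟩ := hφe x h1 h2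
    rw [hc, ht, mul_comm Real.pi, Real.sin_int_mul_pi, mul_zero]
  -- points close to zero
  have hexist : ∀ y : ℝ, 0 < y → ∃ y', 0 < y' ∧ y' < y ∧ (q:ℝ) - 1 / 2 < φ y' := by
    intro y hy
    have h1 : ∀ᶠ y' in 𝓝[>] (0:ℝ), y' < y := nhdsWithin_le_nhds (gt_mem_nhds hy)
    have h2 : ∀ᶠ y' in 𝓝[>] (0:ℝ), 0 < y' := self_mem_nhdsWithin
    obtain ⟨y', h3, h4, h5⟩ := (hnear.and (h1.and h2)).exists
    exact ⟨y', h5, h4, h3⟩
  -- real zeros by IVT
  have hB : ∀ y, 0 < y → y < σ → ∀ K : ℕ, (K:ℝ) < φ y →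
      ∃ S : Finset ℝ, S.card = K ∧ ∀ x ∈ S, y < x ∧ x < σ ∧ g.eval x = 0 := by
    intro y h1 h2 K hK
    obtain ⟨S, hScard, hS⟩ := ivt_count φ y σ h2
      (fun x hx => (hφc x (lt_of_lt_of_le h1 hx.1) hx.2).continuousWithinAt)
      (Finset.Icc (1:ℤ) K) (by
        intro t ht
        rw [Finset.mem_Icc] at ht
        rw [hφσ]
        have a1 : (1:ℝ) ≤ t := by exact_mod_cast ht.1
        have a2 : (t:ℝ) ≤ K := by exact_mod_cast ht.2
        constructor <;> linarith)
    refine ⟨S, by rw [hScard, Int.card_Icc]; omega, ?_⟩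
    intro x hx
    obtain ⟨a1, a2, a3⟩ := hS x hx
    exact ⟨a1, a2, hroot x (by linarith) a2 a3⟩
  have hcross : ∀ ζ : ℂ, 0 < ζ.re → (cx g).eval ζ = 0 → ζ.im = 0 := by
    intro ζ hre hζ
    by_contra him
    obtain ⟨y', h1, h2, h3⟩ := hexist σ hσ
    obtain ⟨S, hScard, hS⟩ : ∃ S : Finset ℝ, S.card = q - 1 ∧ ∀ x ∈ S, y' < x ∧ x < σ ∧ g.eval x = 0 := by
      by_cases hq0 : q = 0
      · exact ⟨∅, by simp [hq0], by simp⟩
      · apply hB y' h1 h2
        have : ((q - 1 : ℕ) : ℝ) = q - 1 := by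
          have : 1 ≤ q := Nat.one_le_iff_ne_zero.2 hq0
          push_cast [this]; ring
        rw [this]; linarith
    have hne : ζ ≠ conj ζ := by
      intro h
      have := congrArg Complex.im h
      simp at this
      apply him; linarith
    have hcard : (S.image (fun y : ℝ => (y : ℂ)) ∪ {ζ, conj ζ}).card = (q - 1) + 2 := by
      rw [Finset.card_union_of_disjoint, Finset.card_image_of_injective _ Complex.ofReal_injective,
        hScard, Finset.card_pair hne]
      rw [Finset.disjoint_left]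
      intro x hx hx'
      rw [Finset.mem_image] at hx
      obtain ⟨y, _, rfl⟩ := hx
      simp only [Finset.mem_insert, Finset.mem_singleton] at hx'
      rcases hx' with h | h
      · rw [← h] at him; simp at him
      · have := congrArg Complex.im h
        simp at this
        exact him this
    have hle : (S.image (fun y : ℝ => (y : ℂ)) ∪ {ζ, conj ζ}).card ≤ Zc g 0 := by
      unfold Zc
      apply countP_finset
      intro x hx
      rw [Finset.mem_union] at hx
      rcases hx with hx | hx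
      · rw [Finset.mem_image] at hx
        obtain ⟨y, hy, rfl⟩ := hx
        obtain ⟨a1, a2, a3⟩ := hS y hy
        refine ⟨(mem_cx_roots hg).2 ?_, ?_⟩
        · rw [cx_eval_real, a3]; simp
        · simp; linarith
      · simp only [Finset.mem_insert, Finset.mem_singleton] at hx
        rcases hx with rfl | rfl
        · exact ⟨(mem_cx_roots hg).2 hζ, hre⟩
        · refine ⟨(mem_cx_roots hg).2 ?_, by simpa using hre⟩
          rw [cx_eval_conj, hζ]; simp
    omega
  have hcross' : ∀ ζ : ℂ, (cx g).eval ζ = 0 → ζ.re = 0 ∨ ζ.im = 0 := by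
    intro ζ hζ
    rcases lt_trichotomy ζ.re 0 with h | h | h
    · right
      have h1 : -ζ ∈ (cx g).roots := by
        rw [← hneg, Multiset.mem_map]
        exact ⟨ζ, (mem_cx_roots hg).2 hζ, rfl⟩
      have h2 := hcross (-ζ) (by simpa using h) ((mem_cx_roots hg).1 h1)
      simpa using h2
    · left; exact h
    · right; exact hcross ζ h hζ
  refine ⟨hcross', ?_⟩
  intro y hy1 hy2 hgy
  -- the value of phi at y is not an integer
  have hnonint : ∀ t : ℤ, φ y ≠ t := fun t ht => hgy (hroot y hy1 hy2 ⟨t, ht⟩)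
  set K := ⌊φ y⌋ with hK
  have hK1 : (K : ℝ) < φ y := lt_of_le_of_ne (Int.floor_le _) (fun h => hnonint K h.symm)
  have hK2 : φ y < K + 1 := Int.lt_floor_add_one _
  -- lower bound
  have hlow : K ≤ Zc g y := by
    by_cases hK0 : K ≤ 0
    · exact hK0.trans (by positivity)
    · push Not at hK0
      obtain ⟨k, hk⟩ := Int.eq_ofNat_of_zero_le hK0.le
      have : (k:ℝ) < φ y := by
        have : ((K:ℤ):ℝ) = k := by rw [hk]; push_cast; rfl
        rw [← this]; exact hK1
      obtain ⟨S, hScard, hS⟩ := hB y hy1 hy2 k this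
      have h1 : S.card ≤ Zc g y := by
        unfold Zc
        have : (S.image (fun y : ℝ => (y : ℂ))).card = S.card :=
          Finset.card_image_of_injective _ Complex.ofReal_injective
        rw [← this]
        apply countP_finset
        intro x hx
        rw [Finset.mem_image] at hx
        obtain ⟨y, hy, rfl⟩ := hx
        obtain ⟨a1, a2, a3⟩ := hS y hy
        refine ⟨(mem_cx_roots hg).2 ?_, by simpa using a1⟩
        rw [cx_eval_real, a3]; simp
      rw [hk, ← hScard]
      exact_mod_cast h1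
  -- parity
  have hpar : (Zc g y : ℤ) % 2 = K % 2 := by
    have h1 := parity g hlc y (by
      intro ζ hζ hre
      rcases hcross' ζ ((mem_cx_roots hg).1 hζ) with h | h
      · rw [h] at hre; linarith
      · apply hgy
        have : ζ = (y : ℂ) := Complex.ext (by simpa using hre) (by simpa using h)
        rw [this, mem_cx_roots hg, cx_eval_real] at hζ
        exact_mod_cast hζ)
    obtain ⟨c, hc0, hc⟩ := hφe y hy1 hy2
    have h2 : 0 < Real.sin (Real.pi * (φ y - K)) := by
      apply Real.sin_pos_of_pos_of_lt_pi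
      · have := Real.pi_pos
        exact mul_pos this (by linarith)
      · have := Real.pi_pos
        nlinarith
    have h3 : Real.sin (Real.pi * φ y) = (-1) ^ K * Real.sin (Real.pi * (φ y - K)) := by
      have : Real.pi * (φ y - K) = Real.pi * φ y - K * Real.pi := by ring
      rw [this, Real.sin_sub_int_mul_pi, ← mul_assoc, ← mul_zpow]; simp
    rw [hc, h3] at h1
    have hz : (0:ℝ) < (-1) ^ (Zc g y) * (-1) ^ K := by
      have h4 : (-1:ℝ) ^ Zc g y * (c * ((-1) ^ K * Real.sin (Real.pi * (φ y - K)))) =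
        ((-1) ^ Zc g y * (-1) ^ K) * (c * Real.sin (Real.pi * (φ y - K))) := by ring
      rw [h4] at h1
      exact pos_of_mul_pos_of_pos_right h1 (by positivity)
    rcases Int.even_or_odd K with hKe | hKo
    · rw [hKe.neg_one_zpow, mul_one] at hz
      rcases Nat.even_or_odd (Zc g y) with hZ | hZ
      · obtain ⟨a, ha⟩ := hKe
        obtain ⟨b, hb⟩ := hZ
        omega
      · rw [hZ.neg_one_pow] at hz; norm_num at hz
    · rw [hKo.neg_one_zpow] at hz
      rcases Nat.even_or_odd (Zc g y) with hZ | hZ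
      · rw [hZ.neg_one_pow] at hz; norm_num at hz
      · obtain ⟨a, ha⟩ := hKo
        obtain ⟨b, hb⟩ := hZ
        omega
  -- upper bound
  have hup : (Zc g y : ℤ) ≤ K + 1 := by
    by_contra hcon
    push Not at hcon
    obtain ⟨y', h1, h2, h3⟩ := hexist y hy1
    obtain ⟨S, hScard, hS⟩ := ivt_count φ y' y h2
      (fun x hx => (hφc x (lt_of_lt_of_le h1 hx.1) (hx.2.trans hy2.le)).continuousWithinAt)
      (Finset.Icc (K + 1) (q - 1)) (by
        intro t ht
        rw [Finset.mem_Icc] at ht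
        have a1 : (K:ℝ) + 1 ≤ t := by exact_mod_cast ht.1
        have a2 : (t:ℝ) ≤ q - 1 := by exact_mod_cast ht.2
        constructor <;> linarith)
    have h4 := Zc_add g hg h2.le S (by
      intro x hx
      obtain ⟨a1, a2, a3⟩ := hS x hx
      exact ⟨a1, a2, hroot x (by linarith) (by linarith) a3⟩)
    have h5 := Zc_anti g h1.le
    rw [hScard, Int.card_Icc] at h4
    omega
  omega
where
  pos_of_mul_pos_of_pos_right {a b : ℝ} (h : 0 < a * b) (hb : 0 < b) : 0 < a :=
    (mul_pos_iff_of_pos_right hb).1 h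

end Pool.Agent.P49a735
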