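import Pool.Agent.Lib.P49a735.Asym

set_option autoImplicit false

namespace Pool.Agent.P49a735

open Polynomial Complex ComplexConjugate Filter Topology Bornology Set

def NV (a : ℝ) (n M : ℕ) : Prop :=
  ∀ A B w : ℂ, A + B + n * a = M → (n : ℝ) * a < M → B.re < A.re → -1 < B.re → ‖w‖ ≤ 1 →
    (Hp a n A B).eval w ≠ 0

theorem sum_re_im {a : ℝ} {n : ℕ} {A B : ℂ} {M : ℝ} (h : A + B + n * a = M) :
    A.re + B.re + n * a = M ∧ A.im + B.im = 0 := by
  have h1 := congrArg Complex.re h
  have h2 := congrArg Complex.im h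
  simp at h1 h2
  exact ⟨h1, h2⟩

theorem D1 (a : ℝ) (ha : 1 ≤ a) (n M : ℕ) (hNV : NV a n M) (A B w : ℂ)
    (hAB : A + B + n * a = M + 1) (hM : n * a < M) (h1 : B.re + 1 ≤ A.re) (h2 : -1 < B.re)
    (hw : ‖w‖ = 1) :
    ‖B * (Fp a n (A - 1) (B + 1)).eval w‖ ≤ ‖(Hp a n A B).eval w‖ := by
  obtain ⟨hre, him⟩ := sum_re_im (M := (M:ℝ) + 1) (by rw [hAB]; push_cast; rfl)
  rcases h1.eq_or_lt with h1 | h1
  · have hB : 0 < B.re := by linarith
    have hB0 : B ≠ 0 := by intro h; rw [h] at hB; simp at hB
    have e1 : A - 1 = conj B := by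
      apply Complex.ext
      · simp; linarith
      · simp; linarith
    have e2 : B + 1 = conj A := by
      apply Complex.ext
      · simp; linarith
      · simp; linarith
    rw [e1, e2, norm_mul, norm_Fp_symm a n A B w hw, Hp_eq _ _ _ _ hB0, eval_mul, eval_C, norm_mul]
  · obtain ⟨A', rfl⟩ : ∃ A', A = A' + 1 := ⟨A - 1, by ring⟩
    have hA're : 0 < A'.re := by simp at hre h1; linarith
    have e0 : A' + 1 - 1 = A' := by ring
    rw [e0]
    set P := Hp a n A' B with hP
    have i1 := congrArg (Polynomial.eval w) (Hp_succA a (by linarith) n A' B hA're)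
    have i2 := congrArg (Polynomial.eval w) (Hp_succB a ha n A' B h2)
    rw [← hP] at i1 i2
    simp only [eval_mul, eval_add, eval_sub, eval_C, eval_X] at i1 i2
    rw [i1, i2]
    have hnz : ∀ w : ℂ, ‖w‖ ≤ 1 → P.eval w ≠ 0 := by
      intro w hw
      refine hNV A' B w ?_ hM ?_ h2 hw
      · linear_combination hAB
      · simp at h1; linarith
    have i3 := re_log_deriv_le P n (natDegree_Hp_le a n A' B) hnz w hw
    have i4 := norm_sq_diff (A' + n * a) B (P.eval w) (a * w * (derivative P).eval w) M (by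
      linear_combination hAB)
    have e5 : (a * w * (derivative P).eval w * conj (P.eval w)).re =
        a * (w * (derivative P).eval w * conj (P.eval w)).re := by
      rw [← Complex.re_ofReal_mul]; congr 1; ring
    rw [e5] at i4
    have e6 : (A' + n * a : ℂ).re = A'.re + n * a := by simp
    rw [e6] at i4
    simp at h1
    have hnn : 0 ≤ ‖P.eval w‖ ^ 2 := by positivity
    have h7 : 0 ≤ (A'.re + n * a - B.re) * ‖P.eval w‖ ^ 2 -
        2 * (a * (w * (derivative P).eval w * conj (P.eval w)).re) := by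
      have : a * (w * (derivative P).eval w * conj (P.eval w)).re ≤
          a * (n / 2 * ‖P.eval w‖ ^ 2) := mul_le_mul_of_nonneg_left i3 (by linarith)
      nlinarith
    have h8 : 0 ≤ (M : ℝ) * ((A'.re + n * a - B.re) * ‖P.eval w‖ ^ 2 -
        2 * (a * (w * (derivative P).eval w * conj (P.eval w)).re)) :=
      mul_nonneg (Nat.cast_nonneg M) h7
    rw [← i4] at h8
    exact le_of_sq_le_sq' (by linarith) (norm_nonneg _)
where
  le_of_sq_le_sq' {x y : ℝ} (h : x ^ 2 ≤ y ^ 2) (hy : 0 ≤ y) : x ≤ y := by
    exact le_of_sq_le_sq h hy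
  le_of_sq_le_sq {x y : ℝ} (h : x ^ 2 ≤ y ^ 2) (hy : 0 ≤ y) : x ≤ y := by
    by_contra hlt
    push Not at hlt
    nlinarith

theorem PLstrip (a : ℝ) (ha : 1 ≤ a) (n K : ℕ) (σ m : ℝ) (hσ : 2 * σ + n * a = K + 1)
    (hm : 1 / 2 ≤ m) (hmσ : m < σ) (hNV : NV a n (K + 1)) (hNV' : NV a n K) (w : ℂ)
    (hw : ‖w‖ = 1) (hw1 : exp (Real.pi * I * a) + w ≠ 0) (hw2 : exp (-(Real.pi * I * a)) + w ≠ 0)
    (z : ℂ) (hz1 : m ≤ z.re) (hz2 : z.re ≤ m + 1) :
    ‖(-z + σ) * (Fp a n (z + σ - 2 * m) (-z + σ + 2 * m)).eval w‖ ≤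
      ‖(Hp a n (z + σ) (-z + σ)).eval w‖ := by
  have hna : n * a < K := by linarith
  have hna' : (n:ℝ) * a < (K + 1 : ℕ) := by push_cast; linarith
  have hσc : (2 * σ + n * a : ℂ) = K + 1 := by exact_mod_cast hσ
  have hH : ∀ z : ℂ, m ≤ z.re → z.re ≤ m + 1 → (Hp a n (z + σ) (-z + σ)).eval w ≠ 0 := by
    intro z h1 h2
    refine hNV _ _ _ ?_ hna' ?_ ?_ hw.le
    · push_cast; linear_combination hσc
    · simp; linarith
    · simp; linarith
  set f : ℂ → ℂ := fun z => (-z + σ) * (Fp a n (z + σ - 2 * m) (-z + σ + 2 * m)).eval w /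
    (Hp a n (z + σ) (-z + σ)).eval w with hf
  have hfd : ∀ z : ℂ, m ≤ z.re → z.re ≤ m + 1 → DifferentiableAt ℂ f z := by
    intro z h1 h2
    refine DifferentiableAt.div (DifferentiableAt.mul (by fun_prop) ?_) ?_ (hH z h1 h2)
    · refine Fp_diff a (by linarith) n w (α := fun z => z + σ - 2 * m)
        (β := fun z => -z + σ + 2 * m) (by fun_prop) (by fun_prop) ?_ ?_
      · simp; linarith
      · simp; linarith
    · refine Hp_diff a ha n w (α := fun z => z + σ) (β := fun z => -z + σ) (by fun_prop)
        (by fun_prop) ?_ ?_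
      · simp; linarith
      · simp; linarith
  have hbd : ‖f z‖ ≤ 1 := by
    refine PhragmenLindelof.vertical_strip (a := m) (b := m + 1) ?_ ?_ ?_ ?_ hz1 hz2
    · apply DifferentiableOn.diffContOnCl
      intro z hz
      have : z ∈ Complex.re ⁻¹' Icc m (m + 1) := by
        have h1 : closure (Complex.re ⁻¹' Ioo m (m + 1)) ⊆ Complex.re ⁻¹' Icc m (m + 1) := by
          apply closure_minimal
          · exact preimage_mono Ioo_subset_Icc_self
          · exact isClosed_Icc.preimage Complex.continuous_re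
        exact h1 hz
      exact (hfd z this.1 this.2).differentiableWithinAt
    · refine ⟨0, by simp; positivity, 0, ?_⟩
      simp only [zero_mul, Real.exp_zero]
      have hO := ratio_bounded K a w n σ σ m (by linear_combination hσc) hw1 hw2
      have hO' := hO.mono (inf_le_left : comap (fun z : ℂ => |z.im|) atTop ⊓
        𝓟 (Complex.re ⁻¹' Ioo m (m + 1)) ≤ _)
      refine hO'.congr' ?_ (EventuallyEq.refl _ _)
      have hne : ∀ᶠ z : ℂ in comap (fun z : ℂ => |z.im|) atTop, 0 < |z.im| :=
        tendsto_comap.eventually (eventually_gt_atTop 0)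
      filter_upwards [hne.filter_mono inf_le_left] with z hz
      have hB : -z + (σ:ℂ) ≠ 0 := by
        intro h
        have := congrArg Complex.im h
        simp at this
        rw [this] at hz; simp at hz
      rw [hf]
      simp only
      rw [Hp_eq _ _ _ _ hB, eval_mul, eval_C, mul_div_mul_left _ _ hB]
    · intro z hz
      have hB : -z + (σ:ℂ) ≠ 0 := by
        intro h
        have := congrArg Complex.re h
        simp at this
        linarith
      rw [hf]
      simp only
      rw [Hp_eq _ _ _ _ hB, eval_mul, eval_C, mul_div_mul_left _ _ hB, norm_div]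
      have e1 : z + σ - 2 * m = conj (-z + σ) := by
        apply Complex.ext
        · simp; linarith
        · simp
      have e2 : -z + σ + 2 * m = conj (z + σ) := by
        apply Complex.ext
        · simp; linarith
        · simp
      rw [e1, e2, norm_Fp_symm a n _ _ w hw]
      exact div_self_le_one _
    · intro z hz
      rw [hf]
      simp only
      rw [norm_div]
      apply div_le_one_of_le₀ _ (norm_nonneg _)
      have s1 := D1 a ha n K hNV' (z + σ) (-z + σ) w (by linear_combination hσc) hna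
        (by simp; linarith) (by simp; linarith) hw
      refine le_trans ?_ s1
      rw [norm_mul, norm_mul]
      apply mul_le_mul_of_nonneg_left _ (norm_nonneg _)
      -- z = m+1+iy ; compare Φ(z-2m) and Φ(z-1)
      set ζ : ℂ := m + z.im * I with hζ
      have hζre : ζ.re = m := by simp [hζ]
      have s2 := D1 a ha n K hNV' (ζ + σ) (-ζ + σ) w (by linear_combination hσc) hna
        (by simp [hζre]; linarith) (by simp [hζre]; linarith) hw
      have hB : -ζ + (σ:ℂ) ≠ 0 := by
        intro h
        have := congrArg Complex.re h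
        simp [hζre] at this
        linarith
      rw [Hp_eq _ _ _ _ hB, eval_mul, eval_C, norm_mul, norm_mul] at s2
      have s3 := le_of_mul_le_mul_left s2 (norm_pos_iff.2 hB)
      have e3 : z + σ - 2 * m = conj (-ζ + σ + 1) := by
        apply Complex.ext
        · simp [hζ]; linarith
        · simp [hζ]
      have e4 : -z + σ + 2 * m = conj (ζ + σ - 1) := by
        apply Complex.ext
        · simp [hζ]; linarith
        · simp [hζ]
      have e5 : z + σ - 1 = ζ + σ := by
        apply Complex.ext
        · simp [hζ]; linarith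
        · simp [hζ]
      have e6 : -z + σ + 1 = -ζ + σ := by
        apply Complex.ext
        · simp [hζ]; linarith
        · simp [hζ]
      rw [e3, e4, norm_Fp_symm a n _ _ w hw, e5, e6]
      exact s3
  rw [hf] at hbd
  simp only at hbd
  rw [norm_div] at hbd
  exact (div_le_one (norm_pos_iff.2 (hH z hz1 hz2))).1 hbd

end Pool.Agent.P49a735
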